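import Mathlib

namespace Pool.Agent.Lib.MP_3a0263_al

attribute [local instance 100] LieRing.ofAssociativeRing

variable {k : Type*} [Field k] {g : Type*} [LieRing g] [LieAlgebra k g]
  {Y : Type*} [AddCommGroup Y] [Module k Y] [LieRingModule g Y] [LieModule k g Y]

/-- An invariant complement gives an equivariant projection. -/
theorem exists_proj (hf : LieModule.IsFaithful k g Y) (R : Submodule k (Module.End k Y))
    (hc : IsCompl (LinearMap.range (LieModule.toEnd k g Y : g →ₗ[k] Module.End k Y)) R)
    (hR : ∀ x : g, ∀ r ∈ R, LieModule.toEnd k g Y x * r - r * LieModule.toEnd k g Y x ∈ R) :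
    ∃ π : Module.End k Y →ₗ[k] g, (∀ x, π (LieModule.toEnd k g Y x) = x) ∧
      ∀ (a : g) (A : Module.End k Y),
        π (LieModule.toEnd k g Y a * A - A * LieModule.toEnd k g Y a) = ⁅a, π A⁆ := by
  have hinj : Function.Injective (LieModule.toEnd k g Y : g →ₗ[k] Module.End k Y) :=
    hf.injective_toEnd
  let e := LinearEquiv.ofInjective (LieModule.toEnd k g Y : g →ₗ[k] Module.End k Y) hinj
  let π : Module.End k Y →ₗ[k] g :=
    e.symm.toLinearMap ∘ₗ Submodule.projectionOnto _ R hc
  have h1 : ∀ x, π (LieModule.toEnd k g Y x) = x := by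
    intro x
    have : (LieModule.toEnd k g Y x) = ((e x : LinearMap.range
      (LieModule.toEnd k g Y : g →ₗ[k] Module.End k Y)) : Module.End k Y) := rfl
    simp only [π, LinearMap.comp_apply]
    rw [this, Submodule.projectionOnto_apply_left]
    simp
  have h2 : ∀ r ∈ R, π r = 0 := by
    intro r hr
    simp only [π, LinearMap.comp_apply]
    rw [Submodule.projectionOnto_apply_of_mem_right hc hr]
    simp
  refine ⟨π, h1, fun a A => ?_⟩
  have hA : A ∈ LinearMap.range (LieModule.toEnd k g Y : g →ₗ[k] Module.End k Y) ⊔ R := by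
    rw [hc.sup_eq_top]; trivial
  obtain ⟨_, ⟨x, rfl⟩, r, hr, rfl⟩ := Submodule.mem_sup.1 hA
  have hx : (LieModule.toEnd k g Y : g →ₗ[k] Module.End k Y) x = LieModule.toEnd k g Y x := rfl
  have h3 : LieModule.toEnd k g Y a * (LieModule.toEnd k g Y x + r) -
      (LieModule.toEnd k g Y x + r) * LieModule.toEnd k g Y a =
      LieModule.toEnd k g Y ⁅a, x⁆ +
        (LieModule.toEnd k g Y a * r - r * LieModule.toEnd k g Y a) := by
    rw [LieHom.map_lie, Ring.lie_def]
    noncomm_ring
  rw [hx, h3, map_add, map_add, h1, h1, h2 _ (hR a r hr), h2 r hr, add_zero, add_zero]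

/-- Schur's lemma. -/
theorem schur [IsAlgClosed k] [FiniteDimensional k Y] (hi : LieModule.IsIrreducible k g Y)
    (T : Module.End k Y)
    (hT : ∀ x : g, LieModule.toEnd k g Y x * T = T * LieModule.toEnd k g Y x) :
    ∃ c : k, T = c • (1 : Module.End k Y) := by
  have : Nontrivial Y := LieModule.nontrivial_of_isIrreducible k g Y
  obtain ⟨c, hc⟩ := Module.End.exists_eigenvalue T
  let N : LieSubmodule k g Y :=
    { T.eigenspace c with
      lie_mem := by
        intro x m hm
        have hm' : T m = c • m := Module.End.mem_eigenspace_iff.1 hm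
        change ⁅x, m⁆ ∈ T.eigenspace c
        rw [Module.End.mem_eigenspace_iff]
        have := congrArg (fun S : Module.End k Y => S m) (hT x)
        simp only [Module.End.mul_apply, LieModule.toEnd_apply_apply, hm'] at this
        rw [← this, lie_smul] }
  have hN : N ≠ ⊥ := by
    intro h
    apply hc
    have : N.toSubmodule = ⊥ := by rw [h]; rfl
    exact this
  have hN' : N = ⊤ := (eq_bot_or_eq_top N).resolve_left hN
  refine ⟨c, ?_⟩
  ext m
  have : m ∈ N := by rw [hN']; trivial
  have hm : T m = c • m := Module.End.mem_eigenspace_iff.1 this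
  simpa using hm

end Pool.Agent.Lib.MP_3a0263_al
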