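import Mathlib

namespace Pool.Agent.Lib.MP_3a0263_al

open LieAlgebra.SpecialLinear Matrix

attribute [local instance 100] LieRing.ofAssociativeRing

variable {k : Type*} [Field k] {ι : Type*} [Fintype ι] [DecidableEq ι]

/-- off-diagonal matrix unit -/
abbrev ee (i j : ι) (h : i ≠ j) : sl ι k := LieAlgebra.SpecialLinear.single i j h (1 : k)

/-- difference of two diagonal matrix units -/
abbrev hh (i j : ι) : sl ι k := singleSubSingle i j (1 : k)

theorem lie_ee_entry (i j : ι) (h : i ≠ j) (X : sl ι k) (a b : ι) :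
    (⁅(ee i j h : sl ι k), X⁆).val a b =
      (if a = i then X.val j b else 0) - (if b = j then X.val a i else 0) := by
  rw [sl_bracket, val_single, Matrix.sub_apply]
  congr 1
  · by_cases ha : a = i
    · subst ha; simp
    · simp [ha]
  · by_cases hb : b = j
    · subst hb; simp
    · simp [hb]

theorem lie_hh_entry (i j : ι) (X : sl ι k) (a b : ι) :
    (⁅(hh i j : sl ι k), X⁆).val a b =
      (((if a = i then 1 else 0) - (if a = j then 1 else 0)) -
        ((if b = i then 1 else 0) - (if b = j then 1 else 0))) * X.val a b := by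
  have h1 : ∀ c : ι, (Matrix.single c c (1 : k) * X.val) a b = (if a = c then 1 else 0) * X.val a b := by
    intro c
    by_cases ha : a = c
    · subst ha; simp
    · simp [ha]
  have h2 : ∀ c : ι, (X.val * Matrix.single c c (1 : k)) a b = (if b = c then 1 else 0) * X.val a b := by
    intro c
    by_cases hb : b = c
    · subst hb; simp
    · simp [hb]
  rw [sl_bracket, val_singleSubSingle, sub_mul, mul_sub]
  simp only [Matrix.sub_apply, h1, h2]
  ring

theorem ee_entry (i j : ι) (h : i ≠ j) (a b : ι) :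
    (ee i j h : sl ι k).val a b = if a = i ∧ b = j then 1 else 0 := by
  rw [val_single, Matrix.single_apply]
  simp only [eq_comm]

theorem hh_entry (i j : ι) (a b : ι) :
    (hh i j : sl ι k).val a b =
      (if a = i ∧ b = i then 1 else 0) - (if a = j ∧ b = j then 1 else 0) := by
  rw [val_singleSubSingle, Matrix.sub_apply, Matrix.single_apply, Matrix.single_apply]
  simp only [eq_comm]

theorem lie_hh_ee (u v i j : ι) (h : i ≠ j) :
    ⁅(hh u v : sl ι k), (ee i j h : sl ι k)⁆ =
      ((((if i = u then 1 else 0) - (if i = v then 1 else 0)) -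
        ((if j = u then 1 else 0) - (if j = v then 1 else 0)) : k)) • (ee i j h : sl ι k) := by
  ext a b
  rw [lie_hh_entry]
  change _ = _ * (ee i j h : sl ι k).val a b
  rw [ee_entry]
  split_ifs with h1 <;> simp_all

theorem lie_ee_ee_opp (i j : ι) (h : i ≠ j) :
    ⁅(ee i j h : sl ι k), (ee j i h.symm : sl ι k)⁆ = hh i j := by
  ext a b
  rw [lie_ee_entry, ee_entry, ee_entry, hh_entry]
  by_cases h1 : a = i <;> by_cases h2 : b = j <;> by_cases h3 : a = j <;> by_cases h4 : b = i <;>
    simp_all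

theorem lie_ee_ee_row (i j l : ι) (h : i ≠ j) (h' : i ≠ l) :
    ⁅(ee i j h : sl ι k), (ee i l h' : sl ι k)⁆ = 0 := by
  ext a b
  rw [lie_ee_entry, ee_entry, ee_entry]
  simp [h.symm, h']

theorem lie_ee_ee_comp (i j l : ι) (h : i ≠ j) (h' : j ≠ l) (h'' : i ≠ l) :
    ⁅(ee i j h : sl ι k), (ee j l h' : sl ι k)⁆ = ee i l h'' := by
  ext a b
  rw [lie_ee_entry, ee_entry, ee_entry, ee_entry]
  by_cases h1 : a = i <;> by_cases h2 : b = l <;> simp_all

theorem lie_ee_ee_comp' (i j l : ι) (h : i ≠ j) (h' : j ≠ l) (h'' : i ≠ l) :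
    ⁅(ee j l h' : sl ι k), (ee i j h : sl ι k)⁆ = - ee i l h'' := by
  rw [← lie_skew, lie_ee_ee_comp i j l h h' h'']

section Product

variable (B : sl ι k →ₗ[k] sl ι k →ₗ[k] sl ι k)
  (hB : ∀ a x y : sl ι k, ⁅a, B x y⁆ = B ⁅a, x⁆ y + B x ⁅a, y⁆)
include hB

theorem diag_of_three (i j : ι) (h : i ≠ j) (h3 : ∀ a b : ι, ∃ c, c ≠ a ∧ c ≠ b)
    (a b : ι) (hab : a ≠ b) : (B (ee i j h) (ee j i h.symm)).val a b = 0 := by
  obtain ⟨c, hca, hcb⟩ := h3 a b
  have h0 : ⁅(hh a c : sl ι k), B (ee i j h) (ee j i h.symm)⁆ = 0 := by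
    rw [hB, lie_hh_ee, lie_hh_ee, map_smul, map_smul, LinearMap.smul_apply, ← add_smul]
    convert zero_smul k _
    ring
  have h1 := lie_hh_entry a c (B (ee i j h) (ee j i h.symm)) a b
  rw [h0] at h1
  simpa [hca.symm, hcb.symm, hab.symm] using h1.symm

theorem prod_comp (u v j : ι) (huv : u ≠ v) (hju : j ≠ u) (hjv : j ≠ v)
    (h3 : ∀ a b : ι, ∃ c, c ≠ a ∧ c ≠ b) :
    B (ee j u hju) (ee u v huv) =
      ((B (ee j u hju) (ee u j hju.symm)).val j j - (B (ee j u hju) (ee u j hju.symm)).val v v) •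
        (ee j v hjv : sl ι k) := by
  have h1 := hB (ee j v hjv) (ee j u hju) (ee u j hju.symm)
  rw [lie_ee_ee_row, lie_ee_ee_comp' u j v hju.symm hjv huv, map_zero, LinearMap.zero_apply,
    zero_add, map_neg] at h1
  have hd := diag_of_three B hB j u hju h3
  rw [← neg_eq_iff_eq_neg] at h1
  rw [← h1]
  ext a b
  change -(⁅(ee j v hjv : sl ι k), B (ee j u hju) (ee u j hju.symm)⁆).val a b =
    _ * (ee j v hjv : sl ι k).val a b
  rw [lie_ee_entry, ee_entry]
  by_cases ha : a = j <;> by_cases hb : b = v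
  · subst ha; subst hb; simp
  · subst ha; simp [hb, hd v b (Ne.symm hb)]
  · subst hb; simp [ha, hd a j ha]
  · simp [ha, hb]

theorem phi_two (u v : ι) (huv : u ≠ v) :
    (B (hh u v) (ee u v huv)).val u v =
      (B (ee v u huv.symm) (ee u v huv)).val v v - (B (ee v u huv.symm) (ee u v huv)).val u u := by
  have h1 := hB (ee u v huv) (ee v u huv.symm) (ee u v huv)
  rw [lie_ee_ee_opp, lie_self, map_zero, add_zero] at h1
  rw [← h1, lie_ee_entry]
  simp

theorem phi_three (u v j : ι) (huv : u ≠ v) (hju : j ≠ u) (hjv : j ≠ v) :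
    (B (hh u j) (ee u v huv)).val u v =
      (B (ee v u huv.symm) (ee u v huv)).val v v - (B (ee v u huv.symm) (ee u v huv)).val j j := by
  have h3 : ∀ a b : ι, ∃ c, c ≠ a ∧ c ≠ b := by
    intro a b
    by_contra hc
    push Not at hc
    by_cases h1 : u = a <;> by_cases h2 : v = a <;> by_cases h3 : j = a <;>
      have := hc u <;> have := hc v <;> have := hc j <;> simp_all
  have hp := prod_comp B hB u v j huv hju hjv h3
  set s := (B (ee j u hju) (ee u j hju.symm)).val j j - (B (ee j u hju) (ee u j hju.symm)).val v v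
    with hs
  have h1 := hB (ee u j hju.symm) (ee j u hju) (ee u v huv)
  rw [lie_ee_ee_opp, lie_ee_ee_row, map_zero, add_zero, hp, lie_smul,
    lie_ee_ee_comp u j v hju.symm hjv huv] at h1
  have h2 := hB (ee v j hjv.symm) (ee j u hju) (ee u v huv)
  rw [hp, lie_smul, lie_ee_ee_opp, lie_ee_ee_comp v j u hjv.symm hju huv.symm,
    lie_ee_ee_comp' u v j huv hjv.symm hju.symm, map_neg] at h2
  have e1 : (B (hh u j) (ee u v huv)).val u v = s := by
    rw [← h1]
    change s * (ee u v huv : sl ι k).val u v = s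
    rw [ee_entry]; simp
  have e2 : ∀ a, s * (hh v j : sl ι k).val a a = (B (ee v u huv.symm) (ee u v huv)).val a a -
      (B (ee j u hju) (ee u j hju.symm)).val a a := by
    intro a
    have := congrArg (fun X : sl ι k => X.val a a) h2
    simpa [sub_eq_add_neg] using this
  have e3 := e2 v
  have e4 := e2 j
  rw [hh_entry] at e3 e4
  simp [hjv, hjv.symm] at e3 e4
  rw [e1]
  linear_combination e3 - e4 - hs

/-- Key lemma: if the size is zero in `k`, an invariant bilinear product on `sl` kills
the identity matrix, tested against a matrix unit. -/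
theorem prod_one_eq_zero (hn : (Fintype.card ι : k) = 0) (z : sl ι k) (hz : z.val = 1)
    (u v : ι) (huv : u ≠ v) : (B z (ee u v huv)).val u v = 0 := by
  set D := B (ee v u huv.symm) (ee u v huv) with hD
  have hsum : z = - ∑ j, (hh u j : sl ι k) := by
    ext a b
    have : ((- ∑ j, (hh u j : sl ι k) : sl ι k)).val a b = - ∑ j, (hh u j : sl ι k).val a b := by
      rw [NegMemClass.coe_neg, AddSubmonoidClass.coe_finsetSum, Matrix.neg_apply,
        Matrix.sum_apply]
    rw [this, hz]
    simp only [hh_entry, Finset.sum_sub_distrib, Finset.sum_const, Finset.card_univ, nsmul_eq_mul,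
      hn, zero_mul, zero_sub, neg_neg]
    by_cases hab : a = b
    · subst hab; simp
    · rw [Matrix.one_apply_ne hab, eq_comm]
      refine Finset.sum_eq_zero fun j _ => ?_
      rw [if_neg]
      rintro ⟨rfl, rfl⟩
      exact hab rfl
  have hterm : ∀ j, (B (hh u j) (ee u v huv)).val u v =
      D.val v v - D.val (Equiv.swap u v j) (Equiv.swap u v j) := by
    intro j
    by_cases hju : j = u
    · subst hju
      have : (hh j j : sl ι k) = 0 := by
        ext a b; rw [hh_entry]; simp
      simp [this]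
    · by_cases hjv : j = v
      · subst hjv
        rw [Equiv.swap_apply_right, phi_two B hB]
      · rw [Equiv.swap_apply_of_ne_of_ne hju hjv, phi_three B hB u v j huv hju hjv]
  have htr : ∑ j, D.val j j = 0 := D.2
  have : (B z (ee u v huv)).val u v = - ∑ j, (B (hh u j) (ee u v huv)).val u v := by
    rw [hsum, map_neg, map_sum]
    simp [Matrix.sum_apply]
  rw [this]
  simp only [hterm, Finset.sum_sub_distrib, Finset.sum_const, Finset.card_univ, nsmul_eq_mul, hn]
  rw [Equiv.sum_comp (Equiv.swap u v) (fun j => D.val j j), htr]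
  simp

end Product

end Pool.Agent.Lib.MP_3a0263_al
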