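import Mathlib
import Pool.Agent.Lib.MP_3a0263_al.SlProduct
import Pool.Agent.Lib.MP_3a0263_al.Proj

namespace Pool.Agent.Lib.MP_3a0263_al

open Polynomial LieAlgebra.SpecialLinear

attribute [local instance 100] LieRing.ofAssociativeRing

section Lin

variable {k : Type*} [Field k] {Y : Type*} [AddCommGroup Y] [Module k Y] [FiniteDimensional k Y]

theorem eq_zero_of_trace_mul (C : Module.End k Y)
    (h : ∀ A : Module.End k Y, LinearMap.trace k Y (C * A) = 0) : C = 0 := by
  let b := Module.finBasis k Y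
  apply (LinearMap.toMatrixAlgEquiv b).injective
  rw [map_zero, Matrix.ext_iff_trace_mul_right]
  intro M
  have := h ((LinearMap.toMatrixAlgEquiv b).symm M)
  rw [LinearMap.trace_eq_matrix_trace k b] at this
  rw [Matrix.zero_mul, Matrix.trace_zero, ← this]
  congr 1
  change _ = LinearMap.toMatrixAlgEquiv b _
  rw [map_mul, AlgEquiv.apply_symm_apply]

theorem exists_trace_repr (f : Module.End k Y →ₗ[k] k) :
    ∃ C : Module.End k Y, ∀ A, f A = LinearMap.trace k Y (C * A) := by
  let B : LinearMap.BilinForm k (Module.End k Y) :=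
    (LinearMap.mul k (Module.End k Y)).compr₂ (LinearMap.trace k Y)
  have hB : B.Nondegenerate := by
    refine ⟨fun C hC => eq_zero_of_trace_mul C fun A => hC A, fun C hC =>
      eq_zero_of_trace_mul C fun A => ?_⟩
    rw [LinearMap.trace_mul_comm]
    exact hC A
  refine ⟨(B.toDual hB).symm f, fun A => ?_⟩
  exact (LinearMap.BilinForm.apply_toDual_symm_apply (hB := hB) f A).symm

theorem commute_aeval {A : Type*} [Ring A] [Algebra k A] {C N : A} (h : Commute C N) (P : k[X]) :
    Commute C (aeval N P) := by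
  induction P using Polynomial.induction_on' with
  | add p q hp hq => rw [map_add]; exact hp.add_right hq
  | monomial n c =>
    rw [aeval_monomial]
    exact Commute.mul_right (Algebra.commutes c C).symm (h.pow_right n)

/-- Fitting type statement: `N - N N y` is nilpotent for a polynomial `y` in `N`. -/
theorem exists_fitting (N : Module.End k Y) :
    ∃ P : k[X], IsNilpotent (N - N * N * aeval N P) := by
  have hne : N.charpoly ≠ 0 := N.charpoly_monic.ne_zero
  obtain ⟨q, hq, hq'⟩ := exists_eq_pow_rootMultiplicity_mul_and_not_dvd N.charpoly hne 0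
  set a := N.charpoly.rootMultiplicity 0
  simp only [map_zero, sub_zero] at hq hq'
  have hc : q.coeff 0 ≠ 0 := by rwa [Ne, ← X_dvd_iff]
  refine ⟨-(C (q.coeff 0)⁻¹ * q.divX), ?_⟩
  have h1 : (X - X * X * -(C (q.coeff 0)⁻¹ * q.divX) : k[X]) = C (q.coeff 0)⁻¹ * (X * q) := by
    have h2 : q = X * q.divX + C (q.coeff 0) := (X_mul_divX_add q).symm
    have h3 : (C (q.coeff 0)⁻¹ * C (q.coeff 0) : k[X]) = 1 := by
      rw [← C_mul, inv_mul_cancel₀ hc, C_1]
    set c := q.coeff 0
    set d := q.divX
    rw [h2]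
    linear_combination (-X) * h3
  have h4 : N - N * N * aeval N (-(C (q.coeff 0)⁻¹ * q.divX)) =
      aeval N (C (q.coeff 0)⁻¹ * (X * q)) := by
    rw [← h1]; simp
  rw [h4]
  refine ⟨a + 1, ?_⟩
  rw [← map_pow]
  have h5 : (C (q.coeff 0)⁻¹ * (X * q)) ^ (a + 1) =
      (C (q.coeff 0)⁻¹ ^ (a + 1) * X * q ^ a) * N.charpoly := by
    conv_rhs => rw [hq]
    ring
  rw [h5, map_mul, LinearMap.aeval_self_charpoly, mul_zero]

/-- A linear map that kills all commutators with `N` kills every nilpotent polynomial in `N`. -/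
theorem map_eq_zero_of_nilpotent {V : Type*} [AddCommGroup V] [Module k V]
    (π : Module.End k Y →ₗ[k] V) (N : Module.End k Y) (hπ : ∀ A, π (N * A - A * N) = 0)
    (P : k[X]) (hP : IsNilpotent (aeval N P)) : π (aeval N P) = 0 := by
  rw [← Module.forall_dual_apply_eq_zero_iff k]
  intro l
  obtain ⟨C, hC⟩ := exists_trace_repr (l ∘ₗ π)
  have hcomm : Commute C N := by
    have : C * N - N * C = 0 := by
      refine eq_zero_of_trace_mul _ fun A => ?_
      have h1 := hC (N * A - A * N)
      rw [LinearMap.comp_apply, hπ, map_zero, mul_sub, map_sub, ← mul_assoc C A N,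
        LinearMap.trace_mul_comm k (C * A) N] at h1
      rw [sub_mul, map_sub, mul_assoc, mul_assoc]
      exact h1.symm
    exact sub_eq_zero.1 this
  have h2 := hC (aeval N P)
  rw [LinearMap.comp_apply] at h2
  rw [h2]
  exact (LinearMap.isNilpotent_trace_of_isNilpotent
    ((commute_aeval hcomm P).isNilpotent_mul_left hP)).eq_zero

end Lin

/-- No faithful finite dimensional module of `sl n`, with `n = 0` in `k`, has an invariant
complement. -/
theorem no_complement {k : Type*} [Field k] {ι : Type*} [Fintype ι] [DecidableEq ι] [Nonempty ι]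
    (hn : (Fintype.card ι : k) = 0)
    {Y : Type*} [AddCommGroup Y] [Module k Y] [LieRingModule (sl ι k) Y] [LieModule k (sl ι k) Y]
    [FiniteDimensional k Y] (hf : LieModule.IsFaithful k (sl ι k) Y)
    (R : Submodule k (Module.End k Y))
    (hc : IsCompl (LinearMap.range (LieModule.toEnd k (sl ι k) Y : sl ι k →ₗ[k] Module.End k Y)) R)
    (hR : ∀ x : sl ι k, ∀ r ∈ R,
      LieModule.toEnd k (sl ι k) Y x * r - r * LieModule.toEnd k (sl ι k) Y x ∈ R) : False := by
  obtain ⟨π, hπ1, hπ2⟩ := exists_proj hf R hc hR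
  set ρ := LieModule.toEnd k (sl ι k) Y with hρ
  have hmem : (1 : Matrix ι ι k) ∈ sl ι k := by
    change Matrix.trace (1 : Matrix ι ι k) = 0
    simp [hn]
  set z : sl ι k := ⟨1, hmem⟩ with hz
  have hzc : ∀ x : sl ι k, ⁅x, z⁆ = 0 := by
    intro x
    ext1
    rw [sl_bracket]
    simp [hz]
  have hcomm : ∀ x, Commute (ρ x) (ρ z) := by
    intro x
    rw [Commute, SemiconjBy, ← sub_eq_zero, ← Ring.lie_def, ← LieHom.map_lie, hzc, map_zero]
  obtain ⟨P, hP⟩ := exists_fitting (ρ z)
  set y := aeval (ρ z) P with hy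
  have hcy : ∀ x, Commute (ρ x) y := fun x => commute_aeval (hcomm x) P
  let B : sl ι k →ₗ[k] sl ι k →ₗ[k] sl ι k :=
    LinearMap.mk₂ k (fun x x' => π (ρ x * ρ x' * y))
      (by intro x x' y; simp [add_mul]) (by intro a x y; simp)
      (by intro x y y'; simp [mul_add, add_mul]) (by intro a x y; simp)
  have hB : ∀ a x x' : sl ι k, ⁅a, B x x'⁆ = B ⁅a, x⁆ x' + B x ⁅a, x'⁆ := by
    intro a x x'
    simp only [B, LinearMap.mk₂_apply]
    rw [← hπ2, ← map_add, LieHom.map_lie, LieHom.map_lie, Ring.lie_def, Ring.lie_def]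
    congr 1
    have := (hcy a).eq
    rw [mul_assoc _ y (ρ a), ← this]
    noncomm_ring
  have hzz : B z z = z := by
    simp only [B, LinearMap.mk₂_apply]
    have h1 : ρ z - ρ z * ρ z * y = aeval (ρ z) (X - X * X * P) := by simp [hy]
    have h2 : π (ρ z - ρ z * ρ z * y) = 0 := by
      rw [h1]
      refine map_eq_zero_of_nilpotent π (ρ z) (fun A => ?_) _ (h1 ▸ hP)
      rw [hπ2, ← lie_skew, hzc, neg_zero]
    rw [map_sub, hπ1, sub_eq_zero] at h2
    exact h2.symm
  obtain ⟨u⟩ := ‹Nonempty ι›
  have hhh : ∀ j, (B z (hh u j)).val u u = 0 := by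
    intro j
    by_cases hj : u = j
    · subst hj
      have : (hh u u : sl ι k) = 0 := by
        ext a b; rw [hh_entry]; simp
      simp [this]
    · have h1 := hB (ee u j hj) z (ee j u (Ne.symm hj))
      rw [hzc, map_zero, LinearMap.zero_apply, zero_add, lie_ee_ee_opp] at h1
      rw [← h1, lie_ee_entry, prod_one_eq_zero B hB hn z rfl j u (Ne.symm hj)]
      simp [hj]
  have hsum : z = - ∑ j, (hh u j : sl ι k) := by
    ext a b
    have : ((- ∑ j, (hh u j : sl ι k) : sl ι k)).val a b = - ∑ j, (hh u j : sl ι k).val a b := by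
      rw [NegMemClass.coe_neg, AddSubmonoidClass.coe_finsetSum, Matrix.neg_apply,
        Matrix.sum_apply]
    rw [this]
    simp only [hz, hh_entry, Finset.sum_sub_distrib, Finset.sum_const, Finset.card_univ,
      nsmul_eq_mul, hn, zero_mul, zero_sub, neg_neg]
    by_cases hab : a = b
    · subst hab; simp
    · rw [Matrix.one_apply_ne hab, eq_comm]
      refine Finset.sum_eq_zero fun j _ => ?_
      rw [if_neg]
      rintro ⟨rfl, rfl⟩
      exact hab rfl
  have h3 : (B z z).val u u = 0 := by
    have h4 : B z z = - ∑ j, B z (hh u j) := by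
      conv_lhs => rw [show B z z = B z (- ∑ j, (hh u j : sl ι k)) from congrArg _ hsum]
      rw [map_neg, map_sum]
    rw [h4, NegMemClass.coe_neg, AddSubmonoidClass.coe_finsetSum, Matrix.neg_apply,
      Matrix.sum_apply]
    simp [hhh]
  rw [hzz] at h3
  simp [hz] at h3

end Pool.Agent.Lib.MP_3a0263_al
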