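import Mathlib

namespace Pool.Agent.Lib.MP_3a0263_al

universe u

variable (k : Type u) [Field k] (p : ℕ) {ι : Type} {A : Type u} [CommRing A] [Algebra k A]

/-- `A` is the truncated polynomial ring `O(n;1) = k[X_i]/(X_i^p)` and `x i` is the class
of `X_i`. -/
def IsTrunc (x : ι → A) : Prop :=
  Function.Surjective (MvPolynomial.aeval x : MvPolynomial ι k →ₐ[k] A) ∧
    RingHom.ker (MvPolynomial.aeval x : MvPolynomial ι k →ₐ[k] A) =
      Ideal.span (Set.range fun i : ι => (MvPolynomial.X i : MvPolynomial ι k) ^ p)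

/-- Derivations of divergence zero. -/
def specialSet [Fintype ι] [DecidableEq ι] (x : ι → A) : Set (Derivation k A A) :=
  {D | ∀ d : ι → Derivation k A A, (∀ i j, d i (x j) = if i = j then 1 else 0) →
    ∑ i, d i (D (x i)) = 0}

/-- The Hamiltonian form `∑ dx_i ∧ dy_i`. -/
def omegaH {r : ℕ} (x y : Fin r → A) (E F : Derivation k A A) : A :=
  ∑ i, (E (x i) * F (y i) - E (y i) * F (x i))

/-- Derivations annihilating the Hamiltonian form. -/
def hamiltonianSet {r : ℕ} (x y : Fin r → A) : Set (Derivation k A A) :=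
  {D | ∀ E F, D (omegaH k x y E F) = omegaH k x y ⁅D, E⁆ F + omegaH k x y E ⁅D, F⁆}

/-- The contact form `dz + ∑ (x_i dy_i - y_i dx_i)`. -/
def omegaK {r : ℕ} (z : A) (x y : Fin r → A) (E : Derivation k A A) : A :=
  E z + ∑ i, (x i * E (y i) - y i * E (x i))

/-- Derivations multiplying the contact form by a function. -/
def contactSet {r : ℕ} (z : A) (x y : Fin r → A) : Set (Derivation k A A) :=
  {D | ∃ c, ∀ E, D (omegaK k z x y E) = omegaK k z x y ⁅D, E⁆ + c * omegaK k z x y E}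

/-- `X` is one of `W(n;1)`, `S(n;1)`, `H(2r;1)`, `K(2r+1;1)` in the variables `x i`. -/
def IsCartanAlgebra [Fintype ι] [DecidableEq ι] (x : ι → A)
    (X : LieSubalgebra k (Derivation k A A)) : Prop :=
  (1 ≤ Fintype.card ι ∧ X = ⊤) ∨
  (2 ≤ Fintype.card ι ∧ X = LieSubalgebra.lieSpan k _ (specialSet k x)) ∨
  (∃ r, 1 ≤ r ∧ ∃ e : Fin r ⊕ Fin r ≃ ι, X = LieSubalgebra.lieSpan k _
    (hamiltonianSet k (fun i => x (e (.inl i))) fun i => x (e (.inr i)))) ∨
  (∃ r, 1 ≤ r ∧ ∃ e : Option (Fin r ⊕ Fin r) ≃ ι, X = LieSubalgebra.lieSpan k _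
    (contactSet k (x (e none)) (fun i => x (e (some (.inl i)))) fun i => x (e (some (.inr i)))))

end Pool.Agent.Lib.MP_3a0263_al
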