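import Pool.Agent.Lib.MP_3a0263_al.TypeA
import Pool.Agent.Lib.MP_3a0263_al.CartanDefs

namespace Pool.Agent.Lib.MP_3a0263_al

attribute [local instance 100] LieRing.ofAssociativeRing

section abstract

variable {k : Type*} [Field k] {A : Type*} [CommRing A] [Algebra k A]

theorem der_nilp (D : Derivation k A A) (J : Ideal A) (hJ : IsNilpotent J) (h : ∀ a, D a ∈ J ^ 2) :
    IsNilpotent (D : Module.End k A) := by
  have h1 : ∀ j, ∀ a ∈ J ^ j, D a ∈ J ^ (j + 1) := by
    intro j
    induction j with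
    | zero => exact fun a _ => Ideal.pow_le_pow_right (by omega) (h a)
    | succ j ih =>
      intro a ha
      rw [pow_succ] at ha
      refine Submodule.mul_induction_on ha (fun b hb c hc => ?_) fun b c hb hc => ?_
      · rw [D.leibniz, smul_eq_mul, smul_eq_mul]
        refine add_mem ?_ ?_
        · rw [add_assoc, pow_add]; exact Ideal.mul_mem_mul hb (h c)
        · rw [pow_succ']; exact Ideal.mul_mem_mul hc (ih b hb)
      · rw [map_add]; exact add_mem hb hc
  have h2 : ∀ j a, ((D : Module.End k A) ^ j) a ∈ J ^ j := by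
    intro j a
    induction j with
    | zero => simp
    | succ j ih => rw [pow_succ' (D : Module.End k A), Module.End.mul_apply]; exact h1 j _ ih
  obtain ⟨N, hN⟩ := hJ
  refine ⟨N, LinearMap.ext fun a => ?_⟩
  have := h2 N a
  rw [hN] at this
  simpa using this

/-- the data for an embedding of the relevant part of the Witt algebra -/
structure Frame (d0 d1 d2 : Derivation k A A) (x y : A) : Prop where
  c01 : ∀ u, d1 (d0 u) = d0 (d1 u)
  c02 : ∀ u, d2 (d0 u) = d0 (d2 u)
  c12 : ∀ u, d2 (d1 u) = d1 (d2 u)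
  x0 : d0 x = 1
  y0 : d0 y = 0
  x1 : d1 x = 0
  y1 : d1 y = 1 ∨ y = 0
  x2 : d2 x = 0
  y2 : d2 y = 0
  nx : IsNilpotent x
  ny : IsNilpotent y

/-- the four basic elements -/
noncomputable def el (d0 d1 d2 : Derivation k A A) (x y : A) (j : ℕ) : Derivation k A A :=
  x ^ j • d0 - ((j : A) * x ^ (j - 1) * y) • d1 + (((j : A) - 1) * x ^ j * y) • d2

variable {d0 d1 d2 : Derivation k A A} {x y : A}

theorem Frame.rel (h : Frame d0 d1 d2 x y) :
    ⁅el d0 d1 d2 x y 0, el d0 d1 d2 x y 1⁆ = el d0 d1 d2 x y 0 ∧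
    ⁅el d0 d1 d2 x y 0, el d0 d1 d2 x y 2⁆ = (2 : k) • el d0 d1 d2 x y 1 ∧
    ⁅el d0 d1 d2 x y 1, el d0 d1 d2 x y 2⁆ = el d0 d1 d2 x y 2 ∧
    ⁅el d0 d1 d2 x y 1, el d0 d1 d2 x y 3⁆ = (2 : k) • el d0 d1 d2 x y 3 := by
  have n2 : ∀ D : Derivation k A A, D 2 = 0 := fun D => by simpa using D.map_natCast 2
  have n3 : ∀ D : Derivation k A A, D 3 = 0 := fun D => by simpa using D.map_natCast 3
  rcases h.y1 with hy | rfl
  · refine ⟨?_, ?_, ?_, ?_⟩ <;> ext u <;>
      simp [el, Derivation.commutator_apply, h.c01, h.c02, h.c12, h.x0, h.y0, h.x1, h.x2, h.y2, hy,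
        n2, n3, two_smul, Derivation.leibniz_pow] <;> ring
  · refine ⟨?_, ?_, ?_, ?_⟩ <;> ext u <;>
      simp [el, Derivation.commutator_apply, h.x0, two_smul, Derivation.leibniz_pow] <;> ring

theorem Frame.mem (h : Frame d0 d1 d2 x y) (h2 : (2 : k) ≠ 0) (X : LieSubalgebra k (Derivation k A A))
    (hX : ∀ j, el d0 d1 d2 x y j ∈ X) (m : ℕ) :
    ∀ j ≤ 3, (⟨_, hX j⟩ : X) ∈ LieAlgebra.derivedSeries k X m := by
  induction m with
  | zero => intro j _; simp
  | succ m ih =>
    have hb : ∀ i ≤ 3, ∀ j ≤ 3, ⁅(⟨_, hX i⟩ : X), (⟨_, hX j⟩ : X)⁆ ∈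
        LieAlgebra.derivedSeries k X (m + 1) := fun i hi j hj => by
      rw [LieAlgebra.derivedSeries_def, LieAlgebra.derivedSeriesOfIdeal_succ]
      exact LieSubmodule.lie_mem_lie (ih i hi) (ih j hj)
    obtain ⟨r1, r2, r3, r4⟩ := h.rel
    intro j hj
    have hs : ∀ a b : X, (b : Derivation k A A) = (2 : k) • (a : Derivation k A A) →
        b ∈ LieAlgebra.derivedSeries k X (m + 1) → a ∈ LieAlgebra.derivedSeries k X (m + 1) := by
      intro a b e hb
      have : a = (2 : k)⁻¹ • b := Subtype.ext (by simp [e, smul_smul, h2])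
      rw [this]
      exact Submodule.smul_mem _ _ hb
    interval_cases j
    · convert hb 0 (by omega) 1 (by omega) using 1; exact Subtype.ext r1.symm
    · exact hs _ _ r2 (hb 0 (by omega) 2 (by omega))
    · convert hb 1 (by omega) 2 (by omega) using 1; exact Subtype.ext r3.symm
    · exact hs _ _ r4 (hb 1 (by omega) 3 (by omega))

theorem Frame.not_ret [IsAlgClosed k] (p : ℕ) [Fact p.Prime] [CharP k p] (h6 : (6 : k) ≠ 0)
    (h : Frame d0 d1 d2 x y) (ε : A →ₐ[k] k) (g : LieSubalgebra k (Derivation k A A))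
    (hg : ∀ j ≤ 3, el d0 d1 d2 x y j ∈ g) {m : Type*} [Fintype m] [DecidableEq m]
    {ρ : g →ₗ[k] Matrix m m k} {π : Matrix m m k →ₗ[k] g} : ¬ Ret ρ π := by
  intro hr
  set δ := el d0 d1 d2 x y 0 with hδ
  set η := el d0 d1 d2 x y 2 + el d0 d1 d2 x y 3 with hη
  have hηg : η ∈ g := add_mem (hg 2 (by omega)) (hg 3 le_rfl)
  have hnil : IsNilpotent (η : Module.End k A) := by
    have hx : x ∈ Ideal.span {x, y} := Ideal.subset_span (by simp)
    have hy : y ∈ Ideal.span {x, y} := Ideal.subset_span (by simp)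
    refine der_nilp η (Ideal.span {x, y}) ?_ fun a => ?_
    · rw [Ideal.FG.isNilpotent_iff_le_nilradical (Submodule.fg_span (Set.toFinite _)),
        Ideal.span_le]
      rintro _ (rfl | rfl)
      · exact h.nx
      · exact h.ny
    · have : η a = x * (x * ((1 + x) * d0 a) + y * (-(2 + 3 * x) * d1 a + (x + 2 * x ^ 2) * d2 a)) := by
        simp [hη, el]; ring
      rw [this, pow_two]
      exact Ideal.mul_mem_mul hx (add_mem (Ideal.mul_mem_right _ _ hx) (Ideal.mul_mem_right _ _ hy))
  let θ : g →ₗ⁅k⁆ Module.End k A := (LieModule.toEnd k (Derivation k A A) A).comp g.incl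
  have hθ : Function.Injective θ := fun a b e =>
    Subtype.ext (Derivation.ext fun u => LinearMap.congr_fun e u)
  obtain ⟨N, hN⟩ := LieAlgebra.ad_nilpotent_of_nilpotent (R := k) hnil
  obtain ⟨u, z, hz, e⟩ := hr.crit1 p ⟨η, hηg⟩ ⟨N, LinearMap.ext fun a => hθ (by
    rw [map_ad_pow]
    show (LieAlgebra.ad k _ (η : Module.End k A) ^ N) _ = _
    rw [hN]; simp)⟩
  have δx : δ x = 1 := by simp [hδ, el, h.x0, h.x2]
  have δy : δ y = 0 := by simp [hδ, el, h.y0, h.y2]
  have εx : ε x = 0 := (h.nx.map ε).eq_zero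
  have εy : ε y = 0 := (h.ny.map ε).eq_zero
  have n2 : ∀ D : Derivation k A A, D 2 = 0 := fun D => by simpa using D.map_natCast 2
  have n3 : ∀ D : Derivation k A A, D 3 = 0 := fun D => by simpa using D.map_natCast 3
  have ηx : η x = x ^ 2 + x ^ 3 := by simp [hη, el, h.x0, h.x1, h.x2]
  have h1 : δ (z.1 x) = 0 := by
    have := congrArg (fun D : g => D.1 x) (hz ⟨δ, hg 0 (by omega)⟩)
    simpa [Derivation.commutator_apply, δx] using this
  obtain ⟨w, hw⟩ : ∃ w, η (u.1 x) = (x ^ 2 + x ^ 3) * δ (u.1 x) + y * w :=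
    ⟨-(2 * x + 3 * x ^ 2) * d1 (u.1 x) + (2 * x ^ 2 + 3 * x ^ 3) * d2 (u.1 x), by
      simp [hη, hδ, el]; ring⟩
  have e0 := congrArg (fun D : g => D.1 x) e
  simp only [AddMemClass.coe_add, Derivation.add_apply, LieSubalgebra.coe_bracket,
    Derivation.commutator_apply, ηx, hw, map_add, Derivation.leibniz_pow] at e0
  generalize u.1 x = H at e0
  have d2 := n2 δ
  have d3 := n3 δ
  have d6 : δ 6 = 0 := by simpa using δ.map_natCast 6
  have e0' : x ^ 2 + x ^ 3 = z.1 x + ((x ^ 2 + x ^ 3) * δ H + y * w - (2 * x + 3 * x ^ 2) * H) := by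
    simp only [smul_eq_mul, nsmul_eq_mul, Nat.cast_ofNat] at e0
    linear_combination e0
  have e1 : 2 * x + 3 * x ^ 2 = (x ^ 2 + x ^ 3) * δ (δ H) + y * δ w - (2 + 6 * x) * H := by
    have := congrArg δ e0'
    simp [δx, δy, h1, d2, d3, Derivation.leibniz_pow] at this
    linear_combination this
  have e2 : 2 + 6 * x = (2 * x + 3 * x ^ 2) * δ (δ H) + (x ^ 2 + x ^ 3) * δ (δ (δ H)) +
      y * δ (δ w) - 6 * H - (2 + 6 * x) * δ H := by
    have := congrArg δ e1
    simp [δx, δy, d2, d3, d6, Derivation.leibniz_pow] at this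
    linear_combination this
  have e3 := congrArg δ e2
  simp [δx, δy, d2, d3, d6, Derivation.leibniz_pow] at e3
  have f1 := congrArg ε e1
  have f2 := congrArg ε e2
  have f3 := congrArg ε e3
  simp only [map_add, map_sub, map_mul, map_pow, εx, εy, map_ofNat] at f1 f2 f3
  apply h6
  linear_combination 6 * f2 - f3 - 18 * f1

end abstract

section concrete

open MvPolynomial

universe u

variable {k : Type u} [Field k] {p : ℕ} [hp : Fact p.Prime] [CharP k p] {ι : Type}
  {A : Type u} [CommRing A] [Algebra k A] {v : ι → A}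

omit hp [CharP k p] in
theorem witt_ext (hv : IsTrunc k p v) {D E : Derivation k A A} (h : ∀ i, D (v i) = E (v i)) :
    D = E := by
  ext a
  obtain ⟨f, rfl⟩ := hv.1 a
  induction f using MvPolynomial.induction_on with
  | C a => simp
  | add f g hf hg => simp only [map_add, hf, hg]
  | mul_X f i hf => rw [map_mul, D.leibniz, E.leibniz, hf, aeval_X, h i]

omit hp in
theorem exists_pd [DecidableEq ι] (hv : IsTrunc k p v) :
    ∃ d : ι → Derivation k A A, ∀ i j, d i (v j) = if i = j then 1 else 0 := by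
  have hd : ∀ i : ι, ∀ f : MvPolynomial ι k, aeval v f = 0 → aeval v (pderiv i f) = 0 := by
    intro i f hf
    rw [← RingHom.mem_ker, hv.2] at hf ⊢
    induction hf using Submodule.span_induction with
    | mem _ h =>
      obtain ⟨j, rfl⟩ := h
      have : ((p : ℕ) : MvPolynomial ι k) = 0 := by
        rw [← map_natCast (C : k →+* MvPolynomial ι k), CharP.cast_eq_zero, map_zero]
      simp [Derivation.leibniz_pow]
    | zero => simp
    | add a b _ _ ha hb => rw [map_add]; exact add_mem ha hb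
    | smul c a h ha =>
      rw [smul_eq_mul, Derivation.leibniz, smul_eq_mul, smul_eq_mul]
      exact add_mem (Ideal.mul_mem_left _ _ ha) (Ideal.mul_mem_right _ _ h)
  refine ⟨fun i => Derivation.liftOfSurjective hv.1 (hd i), fun i j => ?_⟩
  have := Derivation.liftOfSurjective_apply hv.1 (hd i) (X j)
  rw [aeval_X] at this
  refine this.trans ?_
  rw [pderiv_X]
  by_cases h : i = j
  · simp [h]
  · simp [h, Ne.symm h]

omit hp [CharP k p] in
theorem var_nilp (hv : IsTrunc k p v) (i : ι) : IsNilpotent (v i) :=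
  ⟨p, by
    have : (X i : MvPolynomial ι k) ^ p ∈ RingHom.ker (aeval v : MvPolynomial ι k →ₐ[k] A) := by
      rw [hv.2]; exact Ideal.subset_span ⟨i, rfl⟩
    simpa [RingHom.mem_ker] using this⟩

omit [CharP k p] in
theorem exists_aug (hv : IsTrunc k p v) : Nonempty (A →ₐ[k] k) :=
  ⟨(Ideal.Quotient.liftₐ _ (aeval fun _ => 0) fun a ha => by
    rw [hv.2] at ha
    refine (Ideal.span_le (I := RingHom.ker (aeval (R := k) fun _ : ι => (0 : k)))).2 ?_ ha
    rintro _ ⟨i, rfl⟩
    simp [hp.out.ne_zero]).comp (Ideal.quotientKerAlgEquivOfSurjective hv.1).symm.toAlgHom⟩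

omit hp [CharP k p] in
theorem pd_comm [DecidableEq ι] (hv : IsTrunc k p v) {d : ι → Derivation k A A}
    (hd : ∀ i j, d i (v j) = if i = j then 1 else 0) (i j : ι) (u : A) :
    d i (d j u) = d j (d i u) := by
  have : ⁅d i, d j⁆ = 0 := witt_ext hv fun l => by
    rw [Derivation.commutator_apply, hd, hd]
    split_ifs <;> simp
  exact sub_eq_zero.1 (by simpa [Derivation.commutator_apply] using congrArg (· u) this)

omit hp in
theorem exists_frame [Fintype ι] [DecidableEq ι] (hv : IsTrunc k p v)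
    (X : LieSubalgebra k (Derivation k A A)) (hX : IsCartanAlgebra k v X) :
    ∃ (d0 d1 d2 : Derivation k A A) (x y : A),
      Frame d0 d1 d2 x y ∧ ∀ j, el d0 d1 d2 x y j ∈ X := by
  obtain ⟨d, hd⟩ := exists_pd hv
  have hc := pd_comm hv hd
  have fr : ∀ a b : ι, a ≠ b → Frame (d a) (d b) 0 (v a) (v b) := fun a b h =>
    ⟨hc _ _, by simp, by simp, by simp [hd], by simp [hd, h], by simp [hd, h.symm],
      Or.inl (by simp [hd]), rfl, rfl, var_nilp hv a, var_nilp hv b⟩
  have nc : ∀ (D : Derivation k A A) (j : ℕ), D (j : A) = 0 := fun D j => D.map_natCast j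
  rcases hX with ⟨h, rfl⟩ | ⟨h, hX⟩ | ⟨r, hr, e, hX⟩ | ⟨r, hr, e, hX⟩
  · obtain ⟨a⟩ : Nonempty ι := Fintype.card_pos_iff.1 h
    exact ⟨d a, 0, 0, v a, 0, ⟨by simp, by simp, by simp, by simp [hd], by simp, rfl,
      Or.inr rfl, rfl, rfl, var_nilp hv a, IsNilpotent.zero⟩, fun _ => trivial⟩
  · obtain ⟨a, b, hab⟩ := Fintype.exists_pair_of_one_lt_card h
    refine ⟨_, _, _, _, _, fr a b hab, fun j => ?_⟩
    rw [hX]
    refine LieSubalgebra.subset_lieSpan ?_
    intro d' hd'
    rw [Finset.sum_eq_add a b hab (fun c _ hc => by simp [el, hd, hc.1.symm, hc.2.symm])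
      (by simp) (by simp)]
    simp [el, hd, hd', hab, hab.symm, nc, Derivation.leibniz_pow]
  · obtain ⟨r, rfl⟩ := Nat.exists_eq_add_one_of_ne_zero (by omega : r ≠ 0)
    refine ⟨_, _, _, _, _, fr (e (.inl 0)) (e (.inr 0)) (by simp), fun j => ?_⟩
    rw [hX]
    refine LieSubalgebra.subset_lieSpan ?_
    intro E F
    simp only [omegaH, map_sum, ← Finset.sum_add_distrib, Derivation.commutator_apply]
    refine Finset.sum_congr rfl fun i _ => ?_
    have h1 : ∀ s, el (d (e (.inl 0))) (d (e (.inr 0))) 0 (v (e (.inl 0)))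
        (v (e (.inr 0))) j (v (e s)) = if s = .inl 0 then v (e (.inl 0)) ^ j else
        if s = .inr 0 then -((j : A) * v (e (.inl 0)) ^ (j - 1) * v (e (.inr 0))) else 0 := by
      intro s
      simp only [el, Derivation.add_apply, Derivation.sub_apply, Derivation.smul_apply, hd,
        EmbeddingLike.apply_eq_iff_eq, eq_comm (b := s)]
      split_ifs with a1 a2 <;> simp_all
    rw [h1, h1]
    generalize el (d (e (.inl 0))) (d (e (.inr 0))) 0 (v (e (.inl 0))) (v (e (.inr 0))) j = D
    by_cases hi : i = 0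
    · subst hi
      simp [nc, Derivation.leibniz_pow]; ring
    · simp [hi]; ring
  · obtain ⟨r, rfl⟩ := Nat.exists_eq_add_one_of_ne_zero (by omega : r ≠ 0)
    refine ⟨d (e (some (.inl 0))), d (e (some (.inr 0))), d (e none), v (e (some (.inl 0))),
      v (e (some (.inr 0))), ⟨hc _ _, hc _ _, hc _ _, by simp [hd], by simp [hd],
        by simp [hd], Or.inl (by simp [hd]), by simp [hd], by simp [hd], var_nilp hv _,
        var_nilp hv _⟩, fun j => ?_⟩
    rw [hX]
    refine LieSubalgebra.subset_lieSpan ?_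
    refine ⟨0, fun E => ?_⟩
    set x := v (e (some (.inl 0))) with hx
    set y := v (e (some (.inr 0))) with hy
    have h1 : ∀ s, el (d (e (some (.inl 0)))) (d (e (some (.inr 0)))) (d (e none)) x y j
        (v (e s)) = if s = some (.inl 0) then x ^ j else
        if s = some (.inr 0) then -((j : A) * x ^ (j - 1) * y) else
        if s = none then ((j : A) - 1) * x ^ j * y else 0 := by
      intro s
      simp only [el, Derivation.add_apply, Derivation.sub_apply, Derivation.smul_apply, hd,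
        EmbeddingLike.apply_eq_iff_eq, eq_comm (b := s)]
      split_ifs with a1 a2 <;> simp_all
    generalize el (d (e (some (.inl 0)))) (d (e (some (.inr 0)))) (d (e none)) x y j = D at h1
    have hDx : D x = x ^ j := by simpa using h1 (some (.inl 0))
    have hDy : D y = -((j : A) * x ^ (j - 1) * y) := by simpa using h1 (some (.inr 0))
    simp only [omegaK, map_add, map_sum, Derivation.commutator_apply, Fin.sum_univ_succ, map_sub,
      Derivation.leibniz, h1, ← hx, ← hy, hDx, hDy]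
    simp [nc, Derivation.leibniz_pow]
    rcases j with _ | _ | j <;> simp <;> ring

theorem cartan_not_ret [IsAlgClosed k] (h5 : 5 ≤ p) [Fintype ι] [DecidableEq ι]
    (hv : IsTrunc k p v) (X : LieSubalgebra k (Derivation k A A)) (hX : IsCartanAlgebra k v X)
    (m : ℕ) (g : LieSubalgebra k (Derivation k A A))
    (hg : ∀ D : X, D ∈ LieAlgebra.derivedSeries k X m → (D : Derivation k A A) ∈ g)
    {n : Type*} [Fintype n] [DecidableEq n]
    {ρ : g →ₗ[k] Matrix n n k} {π : Matrix n n k →ₗ[k] g} : ¬ Ret ρ π := by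
  obtain ⟨d0, d1, d2, x, y, hF, hm⟩ := exists_frame hv X hX
  obtain ⟨ε⟩ := exists_aug hv
  have h6 : (6 : k) ≠ 0 := fun h => by
    have h1 : p ∣ 2 * 3 := (CharP.cast_eq_zero_iff k p 6).1 (by exact_mod_cast h)
    rcases (Nat.Prime.dvd_mul hp.out).1 h1 with h2 | h2 <;>
      exact absurd (Nat.le_of_dvd (by omega) h2) (by omega)
  have h2 : (2 : k) ≠ 0 := fun h => h6 (by linear_combination 3 * h)
  exact hF.not_ret p h6 ε g fun j hj => hg _ (hF.mem h2 X hm m j hj)

end concrete

end Pool.Agent.Lib.MP_3a0263_al
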