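import Mathlib

namespace Pool.Agent.Lib.MP_3a0263_al

open Polynomial

section conn

variable {K : Type*} [Field K]

/-- a connection along the derivation `D` -/
def IsConn (D : K →+ K) {V : Type*} [AddCommGroup V] [Module K V] (c : V →+ V) : Prop :=
  ∀ (a : K) (v : V), c (a • v) = D a • v + a • c v

theorem exists_conn (D : K →+ K) (hD : ∀ a b, D (a * b) = D a * b + a * D b)
    (V : Type*) [AddCommGroup V] [Module K V] : ∃ c : V →+ V, IsConn D c := by
  classical
  let b := Module.Basis.ofVectorSpace K V
  refine ⟨b.repr.symm.toAddMonoidHom.comp ((Finsupp.mapRange.addMonoidHom D).comp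
    b.repr.toAddMonoidHom), fun a v => ?_⟩
  apply b.repr.injective
  ext i
  simp [hD]

theorem exists_conn_comm (D : K →+ K) (hD : ∀ a b, D (a * b) = D a * b + a * D b) (m : ℕ) :
    ∀ (V : Type*) [AddCommGroup V] [Module K V] (N : Module.End K V), N ^ m = 0 →
      ∃ c : V →+ V, IsConn D c ∧ ∀ v, c (N v) = N (c v) := by
  induction m with
  | zero =>
    intro V _ _ N h
    have : ∀ v : V, v = 0 := fun v => by simpa using congrArg (fun f : Module.End K V => f v) h
    exact ⟨0, fun a v => by rw [this (_ + _)]; rfl, fun v => by simp⟩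
  | succ m ih =>
    intro V _ _ N h
    let W := LinearMap.range N
    have hW : ∀ v ∈ W, N v ∈ W := fun v _ => LinearMap.mem_range_self N v
    obtain ⟨cW, h1, h2⟩ := ih W (N.restrict hW) (by
      ext ⟨_, v, rfl⟩
      rw [Module.End.pow_restrict m hW, LinearMap.restrict_apply]
      have := congrArg (fun f : Module.End K V => f v) h
      simpa [pow_succ] using this)
    obtain ⟨U, hU⟩ := W.exists_isCompl
    obtain ⟨cU, h3⟩ := exists_conn D hD U
    let pW := Submodule.projectionOnto W U hU
    let pU := Submodule.projectionOnto U W hU.symm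
    let c0 : V →+ V := (W.subtype.toAddMonoidHom.comp cW).comp pW.toAddMonoidHom +
      (U.subtype.toAddMonoidHom.comp cU).comp pU.toAddMonoidHom
    have hc0 : ∀ v, c0 v = (cW (pW v) : V) + (cU (pU v) : V) := fun v => rfl
    have hsum : ∀ v, (pW v : V) + (pU v : V) = v := fun v =>
      Submodule.projection_add_projection_eq_self hU v
    have h4 : IsConn D c0 := by
      intro a v
      rw [hc0, hc0, pW.map_smul, pU.map_smul, h1, h3]
      simp only [Submodule.coe_add, Submodule.coe_smul, smul_add]
      conv_rhs => rw [← hsum v, smul_add]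
      rw [hsum]
      abel
    have h5 : ∀ w : W, c0 w = cW w := by
      intro w
      rw [hc0]
      simp [pW, pU]
    let φ : V →ₗ[K] W :=
      { toFun := fun v => cW (N.rangeRestrict v) - N.rangeRestrict (c0 v)
        map_add' := fun u v => by simp only [map_add]; abel
        map_smul' := fun a v => by
          rw [map_smul, h1, h4]
          simp only [map_add, map_smul, RingHom.id_apply, smul_sub]
          abel }
    have hφ : ∀ w : W, φ w = 0 := by
      intro w
      show cW (N.rangeRestrict w) - N.rangeRestrict (c0 w) = 0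
      rw [h5, sub_eq_zero]
      exact h2 w
    obtain ⟨s, hs⟩ := N.rangeRestrict.exists_rightInverse_of_surjective N.range_rangeRestrict
    have hs' : ∀ w : W, N (s w) = w := fun w => congrArg Subtype.val (LinearMap.congr_fun hs w)
    refine ⟨c0 + (s ∘ₗ φ).toAddMonoidHom, fun a v => ?_, fun v => ?_⟩
    · simp only [AddMonoidHom.add_apply, LinearMap.toAddMonoidHom_coe, map_smul, h4 a v, smul_add]
      abel
    · have e1 := h5 (N.rangeRestrict v)
      have e2 := hφ (N.rangeRestrict v)
      simp only [LinearMap.rangeRestrict, LinearMap.codRestrict_apply] at e1 e2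
      simp only [AddMonoidHom.add_apply, LinearMap.toAddMonoidHom_coe, LinearMap.comp_apply, e1, e2,
        map_zero, add_zero, map_add, hs']
      simp [φ]

theorem exists_comm_of_nilp (D : K →+ K) (hD : ∀ a b, D (a * b) = D a * b + a * D b)
    {n : Type*} [Fintype n] [DecidableEq n] (N : Matrix n n K) (m : ℕ) (h : N ^ m = 0) :
    ∃ M : Matrix n n K, N.map D = M * N - N * M := by
  obtain ⟨c, h1, h2⟩ := exists_conn_comm D hD m (n → K) (Matrix.toLinAlgEquiv' N)
    (by rw [← map_pow, h, map_zero])
  let f : (n → K) →ₗ[K] (n → K) :=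
    { toFun := fun v => (fun i => D (v i)) - c v
      map_add' := fun u v => by ext i; simp only [map_add, Pi.add_apply, Pi.sub_apply]; abel
      map_smul' := fun a v => by
        rw [h1]; ext i; simp [hD]; ring }
  refine ⟨Matrix.toLinAlgEquiv'.symm f, Matrix.toLinAlgEquiv'.injective ?_⟩
  rw [map_sub, map_mul, map_mul, AlgEquiv.apply_symm_apply]
  refine LinearMap.ext fun v => ?_
  have := h2 v
  simp only [Matrix.toLinAlgEquiv'_apply] at this
  ext i
  simp only [f, Matrix.toLinAlgEquiv'_apply, LinearMap.sub_apply, Module.End.mul_apply,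
    LinearMap.coe_mk, AddHom.coe_mk, this, Matrix.mulVec_sub, Pi.sub_apply]
  simp [Matrix.mulVec, dotProduct, hD, Finset.sum_add_distrib]

end conn

variable {k : Type*} [Field k]

theorem exists_deriv (K : Type*) [Field K] [Algebra k[X] K] [IsFractionRing k[X] K] :
    ∃ D : K →+ K, (∀ a b, D (a * b) = D a * b + a * D b) ∧
      ∀ f : k[X], D (algebraMap _ _ f) = algebraMap _ _ (derivative f) := by
  let φ : k[X] →+* TrivSqZeroExt K K :=
    { toFun := fun f => (algebraMap _ K f, algebraMap _ K (derivative f))
      map_one' := by ext <;> simp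
      map_mul' := fun f g => by ext <;> simp [add_comm]
      map_zero' := by ext <;> simp
      map_add' := fun f g => by ext <;> simp }
  have hu : ∀ y : nonZeroDivisors k[X], IsUnit (φ y) := fun y =>
    TrivSqZeroExt.isUnit_iff_isUnit_fst.2 (IsLocalization.map_units K y)
  let ψ : K →+* TrivSqZeroExt K K := IsLocalization.lift hu
  have h1 : ∀ a, (ψ a).fst = a := by
    have : (TrivSqZeroExt.fstHom K K K).toRingHom.comp ψ = RingHom.id K := by
      apply IsLocalization.ringHom_ext (nonZeroDivisors k[X])
      refine RingHom.ext fun f => ?_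
      show (ψ (algebraMap _ _ f)).fst = _
      rw [IsLocalization.lift_eq]
      rfl
    exact fun a => RingHom.congr_fun this a
  refine ⟨(TrivSqZeroExt.sndHom K K).toAddMonoidHom.comp ψ.toAddMonoidHom, fun a b => ?_,
    fun f => ?_⟩
  · show (ψ (a * b)).snd = (ψ a).snd * b + a * (ψ b).snd
    rw [map_mul, TrivSqZeroExt.snd_mul, h1, h1, add_comm]
    rfl
  · show (ψ (algebraMap _ _ f)).snd = _
    rw [IsLocalization.lift_eq]
    rfl

variable {n : Type*} [Fintype n] [DecidableEq n]

/-- a linear pencil of matrices -/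
noncomputable def pen (A B : Matrix n n k) : Matrix n n k[X] := A.map C + (X : k[X]) • B.map C

theorem pen_eval (A B : Matrix n n k) (t : k) :
    (evalRingHom t).mapMatrix (pen A B) = A + t • B := by
  ext i j; simp [pen]; ring

omit [Fintype n] [DecidableEq n] in
theorem pen_deriv (A B : Matrix n n k) : (pen A B).map derivative = B.map C := by
  ext i j : 2; simp [pen]

theorem mat_funext [Infinite k] {P Q : Matrix n n k[X]}
    (h : ∀ t, (evalRingHom t).mapMatrix P = (evalRingHom t).mapMatrix Q) : P = Q := by
  exact Matrix.ext fun i j => Polynomial.funext fun t => congrFun (congrFun (h t) i) j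

theorem exists_comm_pen' [Infinite k] (K : Type*) [Field K] [Algebra k[X] K]
    [IsFractionRing k[X] K] (A B : Matrix n n k) (m : ℕ) (h : ∀ t : k, (A + t • B) ^ m = 0) :
    ∃ t : k, t ≠ 0 ∧ ∃ M : Matrix n n k, B = M * (A + t • B) - (A + t • B) * M := by
  obtain ⟨D, hD, hD'⟩ := exists_deriv (k := k) K
  have h1 : pen A B ^ m = 0 := mat_funext fun t => by rw [map_pow, pen_eval, h, map_zero]
  let ι : Matrix n n k[X] →+* Matrix n n K := (algebraMap k[X] K).mapMatrix
  obtain ⟨M, hM⟩ := exists_comm_of_nilp D hD (ι (pen A B)) m (by rw [← map_pow, h1, map_zero])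
  obtain ⟨d, hd⟩ := IsLocalization.exist_integer_multiples_of_finite (nonZeroDivisors k[X])
    (fun ij : n × n => M ij.1 ij.2)
  choose P hP using hd
  have e1 : ι (Matrix.of fun i j => P (i, j)) = (d : k[X]) • M := by
    ext i j; simp [ι, hP]
  have e2 : (ι (pen A B)).map D = ι (B.map C) := by
    rw [← pen_deriv A B]; ext i j; simp [ι, hD']
  have e3 : (d : k[X]) • B.map C = (Matrix.of fun i j => P (i, j)) * pen A B -
      pen A B * (Matrix.of fun i j => P (i, j)) := by
    have hι : Function.Injective ι := Matrix.map_injective (IsFractionRing.injective k[X] K)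
    apply hι
    rw [map_sub, map_mul, map_mul, e1, smul_mul_assoc, mul_smul_comm, ← smul_sub, ← hM, e2]
    ext i j
    simp only [ι, RingHom.mapMatrix_apply, Matrix.map_apply, Matrix.smul_apply, smul_eq_mul, map_mul]
    rw [Algebra.smul_def]
  have hd0 : (d : k[X]) * X ≠ 0 := mul_ne_zero (nonZeroDivisors.ne_zero d.2) X_ne_zero
  obtain ⟨t, ht⟩ : ∃ t, eval t ((d : k[X]) * X) ≠ 0 := by
    by_contra hc
    push Not at hc
    exact hd0 (Polynomial.funext fun t => by simpa using hc t)
  rw [eval_mul, eval_X, mul_ne_zero_iff] at ht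
  refine ⟨t, ht.2, (eval t (d : k[X]))⁻¹ • (evalRingHom t).mapMatrix (Matrix.of fun i j => P (i, j)), ?_⟩
  have e4 := congrArg (evalRingHom t).mapMatrix e3
  rw [map_sub, map_mul, map_mul, pen_eval] at e4
  rw [smul_mul_assoc, mul_smul_comm, ← smul_sub, ← e4]
  ext i j
  simp [ht.1]

theorem exists_comm_pen [Infinite k] (A B : Matrix n n k) (m : ℕ)
    (h : ∀ t : k, (A + t • B) ^ m = 0) :
    ∃ t : k, t ≠ 0 ∧ ∃ M : Matrix n n k, B = M * (A + t • B) - (A + t • B) * M :=
  exists_comm_pen' (FractionRing k[X]) A B m h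

end Pool.Agent.Lib.MP_3a0263_al
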