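import Pool.Agent.Lib.MP_3a0263_al.Conn
import Pool.Agent.Lib.MP_3a0263_al.Proj

namespace Pool.Agent.Lib.MP_3a0263_al

open Polynomial

variable {k : Type*} [Field k] {p : ℕ} [hp : Fact p.Prime] [CharP k p]

section alg

variable {R : Type*} [Ring R] [Algebra k R]

theorem add_pow_q (k : Type*) [Field k] [CharP k p] [Algebra k R] {a b : R} (h : Commute a b) (m : ℕ) :
    (a + b) ^ p ^ m = a ^ p ^ m + b ^ p ^ m := by
  nontriviality R
  have := charP_of_injective_algebraMap (algebraMap k R).injective p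
  exact add_pow_char_pow_of_commute p m h

theorem sub_pow_q (k : Type*) [Field k] [CharP k p] [Algebra k R] {a b : R} (h : Commute a b) (m : ℕ) :
    (a - b) ^ p ^ m = a ^ p ^ m - b ^ p ^ m := by
  rw [eq_sub_iff_add_eq, ← add_pow_q k ((h.sub_left (Commute.refl b))) m, sub_add_cancel]

/-- inner derivation -/
def adr (k : Type*) [Field k] [Algebra k R] (a : R) : Module.End k R :=
  LinearMap.mulLeft k a - LinearMap.mulRight k a

omit hp [CharP k p] in
theorem adr_apply (a b : R) : adr k a b = a * b - b * a := rfl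

theorem adr_pow_q (a b : R) (m : ℕ) : (adr k a ^ p ^ m) b = a ^ p ^ m * b - b * a ^ p ^ m := by
  rw [adr, sub_pow_q k (LinearMap.commute_mulLeft_right a a), LinearMap.pow_mulLeft,
    LinearMap.pow_mulRight]
  rfl

theorem choose_pred (i : ℕ) (hi : i < p) : (((p - 1).choose i : ℕ) : k) = (-1) ^ i := by
  induction i with
  | zero => simp
  | succ i ih =>
    have h1 : (p - 1).choose i + (p - 1).choose (i + 1) = p.choose (i + 1) := by
      rw [← Nat.choose_succ_succ', Nat.sub_add_cancel hp.out.pos]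
    have h2 : ((p.choose (i + 1) : ℕ) : k) = 0 :=
      (CharP.cast_eq_zero_iff k p _).2 (hp.out.dvd_choose_self (by omega) hi)
    rw [← h1, Nat.cast_add, ih (by omega)] at h2
    rw [pow_succ]; linear_combination h2

theorem adr_pow_pred (a b : R) :
    (adr k a ^ (p - 1)) b = ∑ i ∈ Finset.range p, a ^ i * b * a ^ (p - 1 - i) := by
  have hn : (-1 : k) ^ (p - 1) = 1 := by
    rcases hp.out.eq_two_or_odd' with rfl | h
    · simpa using CharTwo.neg_eq (1 : k)
    · exact (Nat.Odd.sub_odd h odd_one).neg_one_pow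
  have hc : Commute (LinearMap.mulLeft k a : Module.End k R) (LinearMap.mulRight k a) :=
    LinearMap.commute_mulLeft_right a a
  rw [adr, sub_eq_add_neg, hc.neg_right.add_pow,
    Nat.sub_add_cancel hp.out.pos, LinearMap.sum_apply]
  refine Finset.sum_congr rfl fun i hi => ?_
  rw [Finset.mem_range] at hi
  have e : (((p - 1).choose i : ℕ) : Module.End k R) = ((-1 : k) ^ i) • 1 := by
    rw [← choose_pred i hi, ← Algebra.algebraMap_eq_smul_one, map_natCast]
  rw [e, ← neg_one_smul k (LinearMap.mulRight k a), _root_.smul_pow, mul_smul_comm, mul_one,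
    mul_smul_comm, smul_smul, ← pow_add, Nat.add_sub_cancel' (by omega), hn, one_smul,
    LinearMap.pow_mulLeft, LinearMap.pow_mulRight]
  simp [mul_assoc]

end alg

variable {n : Type*} [Fintype n] [DecidableEq n]

omit hp [CharP k p] in
theorem deriv_pow (F : Matrix n n k[X]) (j : ℕ) : (F ^ j).map derivative =
    ∑ i ∈ Finset.range j, F ^ i * F.map derivative * F ^ (j - 1 - i) := by
  have hm : ∀ A B : Matrix n n k[X],
      (A * B).map derivative = A.map derivative * B + A * B.map derivative := by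
    intro A B
    refine Matrix.ext fun i j => ?_
    simp [Matrix.mul_apply, Finset.sum_add_distrib]
  induction j with
  | zero =>
    refine Matrix.ext fun i j => ?_
    simp only [pow_zero, Matrix.map_apply, Matrix.one_apply]
    split_ifs <;> simp
  | succ j ih =>
    rw [pow_succ, hm, ih, Finset.sum_range_succ, Finset.sum_mul]
    simp only [Nat.add_sub_cancel, Nat.sub_self, pow_zero, mul_one, add_left_inj]
    refine Finset.sum_congr rfl fun i hi => ?_
    rw [Finset.mem_range] at hi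
    rw [mul_assoc, ← pow_succ]
    congr 2; omega

theorem eval_deriv_pow (A B : Matrix n n k) (t : k) :
    (evalRingHom t).mapMatrix ((pen A B ^ p).map derivative) =
      (adr k (A + t • B) ^ (p - 1)) B := by
  rw [deriv_pow, adr_pow_pred, map_sum]
  refine Finset.sum_congr rfl fun i _ => ?_
  rw [map_mul, map_mul, map_pow, map_pow, pen_eval, pen_deriv]
  congr 2
  ext i j; simp

omit hp [CharP k p] in
theorem pen_deg (A B : Matrix n n k) (j : ℕ) (a b : n) :
    ((pen A B ^ j) a b).natDegree ≤ j ∧ ((pen A B ^ j) a b).coeff j = (B ^ j) a b := by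
  induction j generalizing a b with
  | zero =>
    simp only [pow_zero, Matrix.one_apply]
    split_ifs <;> simp
  | succ j ih =>
    have h1 : ∀ a b, (pen A B a b).natDegree ≤ 1 := fun a b => by
      simp only [pen, Matrix.add_apply, Matrix.map_apply, Matrix.smul_apply, smul_eq_mul]
      compute_degree
    simp only [pow_succ, Matrix.mul_apply]
    constructor
    · exact natDegree_sum_le_of_forall_le _ _ fun c _ =>
        natDegree_mul_le.trans (add_le_add (ih a c).1 (h1 c b))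
    · rw [finsetSum_coeff]
      refine Finset.sum_congr rfl fun c _ => ?_
      rw [coeff_mul_add_eq_of_natDegree_le (ih a c).1 (h1 c b), (ih a c).2]
      simp [pen, coeff_C]

theorem jac [Infinite k] (A B : Matrix n n k) (h : ∀ t : k, (adr k (A + t • B) ^ (p - 1)) B = 0)
    (t : k) : (A + t • B) ^ p = A ^ p + t ^ p • B ^ p := by
  have h1 : (pen A B ^ p).map derivative = 0 :=
    mat_funext fun t => by rw [eval_deriv_pow, h, map_zero]
  have h2 : ∀ a b, (pen A B ^ p) a b =
      C (((pen A B ^ p) a b).coeff 0) + C ((B ^ p) a b) * X ^ p := by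
    intro a b
    ext i
    have h3 : derivative ((pen A B ^ p) a b) = 0 := congrFun (congrFun h1 a) b
    rw [coeff_add, coeff_C, coeff_C_mul_X_pow]
    have := hp.out.pos
    rcases Nat.eq_zero_or_pos i with rfl | hi
    · simp [this.ne]
    rw [if_neg hi.ne', zero_add]
    split_ifs with h4
    · rw [h4, (pen_deg A B p a b).2]
    rcases lt_or_gt_of_ne h4 with h5 | h5
    · obtain ⟨i, rfl⟩ := Nat.exists_eq_add_one_of_ne_zero hi.ne'
      have h6 := congrArg (fun f => coeff f i) h3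
      simp only [coeff_derivative, coeff_zero, mul_eq_zero] at h6
      refine h6.resolve_right fun h7 => ?_
      have := (CharP.cast_eq_zero_iff k p (i + 1)).1 (by exact_mod_cast h7)
      exact absurd (Nat.le_of_dvd hi this) (by omega)
    · exact coeff_eq_zero_of_natDegree_lt (lt_of_le_of_lt (pen_deg A B p a b).1 h5)
  have h3 : ∀ t a b, ((A + t • B) ^ p) a b =
      ((pen A B ^ p) a b).coeff 0 + (B ^ p) a b * t ^ p := by
    intro t a b
    rw [← pen_eval, ← map_pow]
    have := congrArg (eval t) (h2 a b)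
    simpa using this
  ext a b
  have h4 := h3 0 a b
  rw [zero_smul, add_zero, zero_pow hp.out.ne_zero, mul_zero, add_zero] at h4
  rw [h3, Matrix.add_apply, h4, Matrix.smul_apply, smul_eq_mul, mul_comm]

omit [CharP k p] in
theorem exists_root [IsAlgClosed k] (ξ : Matrix n n k) (m : ℕ) :
    ∃ S ∈ Algebra.adjoin k {ξ}, IsNilpotent (ξ - S ^ p ^ m) := by
  classical
  choose r hr using fun a : k => IsAlgClosed.exists_pow_nat_eq a (pow_pos hp.out.pos m)
  let P := ξ.charpoly
  let Q := Lagrange.interpolate P.roots.toFinset id r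
  refine ⟨aeval ξ Q, Polynomial.aeval_mem_adjoin_singleton k ξ, P.roots.card, ?_⟩
  have h1 : P ∣ (X - Q ^ p ^ m) ^ P.roots.card := by
    conv_lhs => rw [(IsAlgClosed.splits P).eq_prod_roots_of_monic ξ.charpoly_monic]
    rw [← Multiset.prod_replicate, ← Multiset.map_const]
    refine Multiset.prod_dvd_prod_of_dvd _ _ fun a ha => dvd_iff_isRoot.2 ?_
    have := Lagrange.eval_interpolate_at_node (s := P.roots.toFinset) (v := id) r
      (Function.injective_id.injOn) (Multiset.mem_toFinset.2 ha)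
    have h2 : eval a Q = r a := this
    simp [h2, hr]
  obtain ⟨c, hc⟩ := h1
  have := congrArg (aeval ξ) hc
  simpa [P, Matrix.aeval_self_charpoly] using this

variable {g : Type*} [LieRing g] [LieAlgebra k g]

/-- an equivariant retraction of a matrix representation -/
structure Ret (ρ : g →ₗ[k] Matrix n n k) (π : Matrix n n k →ₗ[k] g) : Prop where
  lie : ∀ a b, ρ ⁅a, b⁆ = ρ a * ρ b - ρ b * ρ a
  left : ∀ x, π (ρ x) = x
  equi : ∀ a A, π (ρ a * A - A * ρ a) = ⁅a, π A⁆

variable {ρ : g →ₗ[k] Matrix n n k} {π : Matrix n n k →ₗ[k] g}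

omit hp [CharP k p] in
theorem Ret.pi_pow (h : Ret ρ π) (a : g) (j : ℕ) (A : Matrix n n k) :
    π ((adr k (ρ a) ^ j) A) = (LieAlgebra.ad k g a ^ j) (π A) := by
  induction j with
  | zero => simp
  | succ j ih => rw [pow_succ', pow_succ', Module.End.mul_apply, adr_apply, h.equi, ih]; rfl

omit hp [CharP k p] in
theorem Ret.rho_pow (h : Ret ρ π) (a : g) (j : ℕ) (b : g) :
    ρ ((LieAlgebra.ad k g a ^ j) b) = (adr k (ρ a) ^ j) (ρ b) := by
  induction j with
  | zero => simp
  | succ j ih =>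
    rw [pow_succ', pow_succ', Module.End.mul_apply, Module.End.mul_apply, adr_apply, ← ih, ← h.lie]
    rfl

/-- operators invisible to the retraction -/
def cen (ρ : g →ₗ[k] Matrix n n k) (π : Matrix n n k →ₗ[k] g) : Subalgebra k (Matrix n n k) where
  carrier := {S | (∀ a, Commute S (ρ a)) ∧ ∀ B, π (S * B) = π (B * S)}
  mul_mem' := fun {S T} hS hT => ⟨fun a => (hS.1 a).mul_left (hT.1 a), fun B => by
    rw [mul_assoc, hS.2, mul_assoc, hT.2, mul_assoc]⟩
  add_mem' := fun {S T} hS hT => ⟨fun a => (hS.1 a).add_left (hT.1 a), fun B => by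
    rw [add_mul, mul_add, map_add, map_add, hS.2, hT.2]⟩
  algebraMap_mem' := fun c => ⟨fun a => Algebra.commutes c _, fun B => by rw [Algebra.commutes]⟩

theorem Ret.exists_S [IsAlgClosed k] (h : Ret ρ π) (m : ℕ) (x : g)
    (hx : LieAlgebra.ad k g x ^ p ^ m = 0) :
    ρ x ^ p ^ m ∈ cen ρ π ∧ ∃ S ∈ Algebra.adjoin k {ρ x ^ p ^ m},
      S ∈ cen ρ π ∧ IsNilpotent (ρ x ^ p ^ m - S ^ p ^ m) := by
  have h1 : ρ x ^ p ^ m ∈ cen ρ π := by
    constructor
    · intro a
      have := h.rho_pow x (p ^ m) a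
      rw [hx, adr_pow_q] at this
      exact sub_eq_zero.1 (by simpa using this.symm)
    · intro B
      have := h.pi_pow x (p ^ m) B
      rw [hx, adr_pow_q, map_sub] at this
      exact sub_eq_zero.1 (by simpa using this)
  obtain ⟨S, hS, hn⟩ := exists_root (p := p) (ρ x ^ p ^ m) m
  exact ⟨h1, S, hS, Algebra.adjoin_le (Set.singleton_subset_iff.2 h1) hS, hn⟩

theorem Ret.crit [IsAlgClosed k] (h : Ret ρ π) (m : ℕ) (x y : g)
    (hx : LieAlgebra.ad k g x ^ p ^ m = 0) (hy : LieAlgebra.ad k g y ^ p ^ m = 0)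
    (hj : ∀ t : k, (ρ x + t • ρ y) ^ p ^ m = ρ x ^ p ^ m + t ^ p ^ m • ρ y ^ p ^ m) :
    ∃ t : k, t ≠ 0 ∧ ∃ u z : g, (∀ a : g, ⁅a, z⁆ = 0) ∧ y = z + ⁅x + t • y, u⁆ := by
  obtain ⟨a0, S, hS, hS', a, ha⟩ := h.exists_S m x hx
  obtain ⟨b0, T, hT, hT', b, hb⟩ := h.exists_S m y hy
  have hc : ∀ U ∈ cen ρ π, Commute U T := fun U hU =>
    (Algebra.commute_of_mem_adjoin_singleton_of_commute hT ((hU.1 y).pow_right _))
  have hU : ρ x ^ p ^ m - S ^ p ^ m ∈ cen ρ π := sub_mem a0 (pow_mem hS' _)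
  have key : ∀ t : k, ((ρ x - S) + t • (ρ y - T)) ^ (p ^ m * (a + b)) = 0 := by
    intro t
    have e : (ρ x - S) + t • (ρ y - T) = (ρ x + t • ρ y) - (S + t • T) := by
      rw [smul_sub]; abel
    have c1 : Commute (ρ x + t • ρ y) (S + t • T) := by
      rw [← map_smul, ← map_add]
      exact ((add_mem hS' (Subalgebra.smul_mem _ hT' t)).1 _).symm
    rw [pow_mul, e, sub_pow_q k c1, hj, add_pow_q k ((hc S hS').smul_right t), _root_.smul_pow]
    have e2 : ρ x ^ p ^ m + t ^ p ^ m • ρ y ^ p ^ m - (S ^ p ^ m + t ^ p ^ m • T ^ p ^ m) =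
        (ρ x ^ p ^ m - S ^ p ^ m) + t ^ p ^ m • (ρ y ^ p ^ m - T ^ p ^ m) := by
      rw [smul_sub]; abel
    rw [e2]
    refine Commute.add_pow_eq_zero_of_add_le_succ_of_pow_eq_zero
      ((((hU.1 y).pow_right _).sub_right ((hc _ hU).pow_right _)).smul_right _) ha
      (m := a) (n := b) ?_ (by omega)
    rw [_root_.smul_pow, hb, smul_zero]
  obtain ⟨t, ht, M, hM⟩ := exists_comm_pen _ _ _ key
  refine ⟨t, ht, -π M, π T, fun a => ?_, ?_⟩
  · rw [← h.equi, (hT'.1 a).eq, sub_self, map_zero]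
  · have e : (ρ x - S) + t • (ρ y - T) = ρ (x + t • y) - (S + t • T) := by
      rw [smul_sub, map_add, map_smul]; abel
    have h1 := congrArg π hM
    have h2 := (add_mem hS' (Subalgebra.smul_mem _ hT' t)).2 M
    rw [e, mul_sub, sub_mul, map_sub, map_sub, map_sub, map_sub, h.left, h2] at h1
    rw [lie_neg, ← h.equi, map_sub, ← sub_eq_iff_eq_add', h1]
    abel

theorem Ret.crit1 [IsAlgClosed k] (h : Ret ρ π) (p : ℕ) [hp : Fact p.Prime] [CharP k p] (y : g)
    (hy : IsNilpotent (LieAlgebra.ad k g y)) :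
    ∃ u z : g, (∀ a : g, ⁅a, z⁆ = 0) ∧ y = z + ⁅y, u⁆ := by
  obtain ⟨m, hm⟩ := hy
  obtain ⟨t, _, u, z, h1, h2⟩ := h.crit (p := p) m 0 y
    (by rw [map_zero, zero_pow (pow_pos hp.out.pos m).ne'])
    (pow_eq_zero_of_le (Nat.lt_pow_self hp.out.one_lt).le hm)
    (fun t => by simp [_root_.smul_pow, zero_pow (pow_pos hp.out.pos m).ne'])
  exact ⟨t • u, z, h1, by simpa using h2⟩

theorem Ret.crit2 [IsAlgClosed k] (h : Ret ρ π) (x y : g)
    (hx : LieAlgebra.ad k g x ^ p = 0) (hy : LieAlgebra.ad k g y ^ p = 0)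
    (hj : ∀ t : k, (LieAlgebra.ad k g (x + t • y) ^ (p - 1)) y = 0) :
    ∃ t : k, t ≠ 0 ∧ ∃ u z : g, (∀ a : g, ⁅a, z⁆ = 0) ∧ y = z + ⁅x + t • y, u⁆ := by
  refine h.crit (p := p) 1 x y (by rwa [pow_one]) (by rwa [pow_one]) fun t => ?_
  rw [pow_one]
  refine jac _ _ (fun t => ?_) t
  rw [← map_smul, ← map_add, ← h.rho_pow, hj, map_zero]

attribute [local instance 100] LieRing.ofAssociativeRing

omit hp [CharP k p] in
theorem exists_ret {Y : Type*} [AddCommGroup Y] [Module k Y] [LieRingModule g Y] [LieModule k g Y]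
    [FiniteDimensional k Y] (hf : LieModule.IsFaithful k g Y) (R : Submodule k (Module.End k Y))
    (hc : IsCompl (LinearMap.range (LieModule.toEnd k g Y : g →ₗ[k] Module.End k Y)) R)
    (hR : ∀ x : g, ∀ r ∈ R, ⁅LieModule.toEnd k g Y x, r⁆ ∈ R) :
    ∃ (m : ℕ) (ρ : g →ₗ[k] Matrix (Fin m) (Fin m) k) (π : Matrix (Fin m) (Fin m) k →ₗ[k] g),
      Ret ρ π := by
  obtain ⟨π, h1, h2⟩ := exists_proj hf R hc hR
  let e := LinearMap.toMatrixAlgEquiv (Module.finBasis k Y)
  refine ⟨_, e.toLinearMap ∘ₗ (LieModule.toEnd k g Y : g →ₗ[k] Module.End k Y),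
    π ∘ₗ e.symm.toLinearMap, fun a b => ?_, fun x => ?_, fun a A => ?_⟩
  · simp [Ring.lie_def]
  · simp [h1]
  · simp [← h2]

omit hp [CharP k p] [DecidableEq n] in
theorem Ret.comp (h : Ret ρ π) {g' : Type*} [LieRing g'] [LieAlgebra k g'] (i : g' →ₗ⁅k⁆ g)
    (r : g →ₗ[k] g') (h1 : ∀ x, r (i x) = x) (h2 : ∀ a b, r ⁅i a, b⁆ = ⁅a, r b⁆) :
    Ret (ρ ∘ₗ (i : g' →ₗ[k] g)) (r ∘ₗ π) :=
  ⟨fun a b => by simp [h.lie], fun x => by simp [h.left, h1], fun a A => by
    rw [LinearMap.comp_apply, LinearMap.comp_apply, h.equi]; exact h2 a _⟩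

end Pool.Agent.Lib.MP_3a0263_al
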