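import Mathlib

namespace Pool.Agent.Lib.MP_3a0263_al

attribute [local instance 100] LieRing.ofAssociativeRing

universe u

/-- The Richardson property without the simplicity requirement: a finite dimensional faithful
module `Y` and a subspace `R` of `gl(Y)` complementary to the image of `g` and stable under
bracketing with that image. -/
def HasInvariantComplement (k g : Type u) [Field k] [LieRing g] [LieAlgebra k g] : Prop :=
  ∃ (Y : Type u) (_ : AddCommGroup Y) (_ : Module k Y) (_ : LieRingModule g Y)
    (_ : LieModule k g Y),
    FiniteDimensional k Y ∧ LieModule.IsFaithful k g Y ∧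
      ∃ R : Submodule k (Module.End k Y),
        IsCompl (LinearMap.range (LieModule.toEnd k g Y : g →ₗ[k] Module.End k Y)) R ∧
        ∀ x : g, ∀ r ∈ R, ⁅LieModule.toEnd k g Y x, r⁆ ∈ R

end Pool.Agent.Lib.MP_3a0263_al
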