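import Pool.Agent.Lib.MP_3a0263_al.Crit

namespace Pool.Agent.Lib.MP_3a0263_al

open Polynomial LieAlgebra.SpecialLinear

attribute [local instance 100] LieRing.ofAssociativeRing

variable {k : Type*} [Field k] {p : ℕ} [hp : Fact p.Prime] [CharP k p]
variable {n : Type*} [Fintype n] [DecidableEq n]

theorem adr_of_pow [Infinite k] (A B D : Matrix n n k) (h : ∀ t : k, (A + t • B) ^ p = t • D)
    (t : k) : (adr k (A + t • B) ^ (p - 1)) B = D := by
  have h1 : pen A B ^ p = pen 0 D := mat_funext fun t => by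
    rw [map_pow, pen_eval, pen_eval, h, zero_add]
  rw [← eval_deriv_pow, h1, pen_deriv]
  ext i j; simp

omit hp [CharP k p] in
theorem map_ad_pow {g g' : Type*} [LieRing g] [LieAlgebra k g] [LieRing g'] [LieAlgebra k g']
    (f : g →ₗ⁅k⁆ g') (x a : g) (j : ℕ) :
    f ((LieAlgebra.ad k g x ^ j) a) = (LieAlgebra.ad k g' (f x) ^ j) (f a) := by
  induction j with
  | zero => simp
  | succ j ih =>
    rw [pow_succ', pow_succ', Module.End.mul_apply, Module.End.mul_apply, ← ih]; simp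

omit hp [CharP k p] in
theorem ad_eq_adr {R : Type*} [Ring R] [Algebra k R] (a : R) : LieAlgebra.ad k R a = adr k a := rfl

/-- weighted shift -/
def wsh (σ : Equiv.Perm n) (w : n → k) : Matrix n n k := Matrix.of fun i j => if i = σ j then w j else 0

omit hp [CharP k p] in
theorem wsh_pow (σ : Equiv.Perm n) (w : n → k) (m : ℕ) :
    wsh σ w ^ m = wsh (σ ^ m) fun j => ∏ s ∈ Finset.range m, w ((σ ^ s) j) := by
  induction m with
  | zero => ext i j; simp [wsh, Matrix.one_apply]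
  | succ m ih =>
    rw [pow_succ, ih]
    ext i j
    simp [wsh, Matrix.mul_apply, pow_succ, Finset.prod_range_succ']

omit hp [CharP k p] [Fintype n] in
theorem wsh_add (σ : Equiv.Perm n) (w w' : n → k) (t : k) :
    wsh σ w + t • wsh σ w' = wsh σ (w + t • w') := by
  ext i j; simp only [wsh, Matrix.add_apply, Matrix.smul_apply, Matrix.of_apply]; split_ifs <;> simp

/-- a free action of the cyclic group with a position function -/
structure Cyc (p : ℕ) (σ : Equiv.Perm n) (pos : n → ZMod p) : Prop where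
  step : ∀ j, pos (σ j) = pos j + 1
  ord : σ ^ p = 1

omit [DecidableEq n] in
theorem exists_cyc (h : p ∣ Fintype.card n) : ∃ (σ : Equiv.Perm n) (pos : n → ZMod p), Cyc p σ pos := by
  obtain ⟨r, hr⟩ := h
  have e : n ≃ ZMod p × Fin r := Fintype.equivOfCardEq (by simp [hr])
  let τ : Equiv.Perm (ZMod p × Fin r) := Equiv.prodCongr (Equiv.addRight 1) (Equiv.refl _)
  have hτ : ∀ (m : ℕ) (a : ZMod p × Fin r), (τ ^ m) a = (a.1 + m, a.2) := by
    intro m a
    induction m with
    | zero => simp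
    | succ m ih => rw [pow_succ', Equiv.Perm.mul_apply, ih]; simp [τ, add_assoc]
  refine ⟨e.symm.permCongrHom τ, fun j => (e j).1, fun j => by simp [τ], ?_⟩
  rw [← map_pow, ← map_one e.symm.permCongrHom]
  congr 1
  ext a : 1
  simp [hτ]

variable {σ : Equiv.Perm n} {pos : n → ZMod p}

omit [Fintype n] [DecidableEq n] in
theorem Cyc.pos_pow (h : Cyc p σ pos) (s : ℕ) (j : n) : pos ((σ ^ s) j) = pos j + s := by
  induction s with
  | zero => simp
  | succ s ih => rw [pow_succ', Equiv.Perm.mul_apply, h.step, ih]; push_cast; ring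

omit [CharP k p] in
theorem Cyc.pow_eq (h : Cyc p σ pos) (w : n → k) (t : k) (h1 : ∀ j, pos j = -1 → w j = t)
    (h2 : t = 0 ∨ ∀ j, pos j ≠ -1 → w j = 1) : wsh σ w ^ p = t • 1 := by
  rw [wsh_pow, h.ord]
  ext i j
  have hs : pos ((σ ^ (-1 - pos j).val) j) = -1 := by rw [h.pos_pow]; simp
  have hm : (-1 - pos j).val ∈ Finset.range p := Finset.mem_range.2 (ZMod.val_lt _)
  have : ∏ s ∈ Finset.range p, w ((σ ^ s) j) = t := by
    rcases h2 with rfl | h2
    · exact Finset.prod_eq_zero hm (h1 _ hs)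
    · rw [Finset.prod_eq_single_of_mem _ hm, h1 _ hs]
      intro s hs' hne
      refine h2 _ fun e => hne ?_
      rw [h.pos_pow] at e
      rw [← e, add_sub_cancel_left, ZMod.val_natCast_of_lt (Finset.mem_range.1 hs')]
  simp [wsh, this, Matrix.one_apply]

omit [Fintype n] [DecidableEq n] in
theorem Cyc.ne (h : Cyc p σ pos) (j : n) : σ j ≠ j := fun e => by
  have := h.step j
  rw [e] at this
  simp at this

omit [CharP k p] in
theorem Cyc.trace (h : Cyc p σ pos) (w : n → k) : (wsh σ w).trace = 0 := by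
  simp [Matrix.trace, wsh, (h.ne _).symm]

variable {g : Type*} [LieRing g] [LieAlgebra k g] {m : Type*} [Fintype m] [DecidableEq m]
  {ρ : g →ₗ[k] Matrix m m k} {π : Matrix m m k →ₗ[k] g}

theorem no_ret_sl [IsAlgClosed k] [Nonempty n] (hn : p ∣ Fintype.card n) (φ : sl n k →ₗ⁅k⁆ g)
    (hφ : Function.Surjective φ) (hker : ∀ a, φ a = 0 → ∃ c : k, a.1 = c • 1)
    (hcen : ∀ z : sl n k, (∀ a : sl n k, φ ⁅a, z⁆ = 0) → ∃ c : k, z.1 = c • 1) : ¬ Ret ρ π := by
  intro h
  obtain ⟨σ, pos, hc⟩ := exists_cyc hn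
  obtain ⟨j0, hj0⟩ : ∃ j0, pos j0 = 0 := by
    obtain ⟨j⟩ := ‹Nonempty n›
    exact ⟨(σ ^ (-pos j).val) j, by rw [hc.pos_pow]; simp⟩
  have hj1 : pos j0 ≠ -1 := by rw [hj0]; simp
  let w : n → k := fun j => if pos j = -1 ∨ j = j0 then 0 else 1
  let w' : n → k := fun j => if j = j0 then 1 else 0
  let x : sl n k := ⟨wsh σ w, hc.trace w⟩
  let y : sl n k := ⟨wsh σ w', hc.trace w'⟩
  have hw' : ∀ j, pos j = -1 → w' j = 0 := fun j hj => if_neg (by rintro rfl; exact hj1 hj)
  have hp0 : ∀ v : n → k, (∀ j, pos j = -1 → v j = 0) → wsh σ v ^ p = 0 := fun v hv => by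
    simpa using hc.pow_eq v 0 hv (Or.inl rfl)
  have hxy : ∀ t : k, (x.1 + t • y.1) ^ p = t • (0 : Matrix n n k) := fun t => by
    rw [smul_zero]
    show (wsh σ w + t • wsh σ w') ^ p = 0
    rw [wsh_add]
    exact hp0 _ fun j hj => by simp [w, hw' j hj, hj]
  have hnil : ∀ u : sl n k, u.1 ^ p = 0 → LieAlgebra.ad k g (φ u) ^ p = 0 := by
    intro u hu
    ext b
    obtain ⟨a, rfl⟩ := hφ b
    have : (LieAlgebra.ad k _ u ^ p) a = 0 := by
      have := map_ad_pow (sl n k).incl u a p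
      have h2 := adr_pow_q (k := k) (p := p) u.1 a.1 1
      rw [pow_one, hu] at h2
      exact Subtype.ext (this.trans (h2.trans (by simp)))
    rw [← map_ad_pow, this, map_zero, LinearMap.zero_apply]
  obtain ⟨t, ht, u, z, hz, e⟩ := h.crit2 (p := p) (φ x) (φ y)
    (hnil x (hp0 _ fun j hj => by simp [w, hj])) (hnil y (hp0 _ hw')) (fun t => by
      have : (LieAlgebra.ad k _ (x + t • y) ^ (p - 1)) y = 0 :=
        Subtype.ext ((map_ad_pow (sl n k).incl _ y _).trans (adr_of_pow _ _ _ hxy t))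
      rw [← map_smul, ← map_add, ← map_ad_pow, this, map_zero])
  obtain ⟨u, rfl⟩ := hφ u
  obtain ⟨z, rfl⟩ := hφ z
  obtain ⟨c, hzc⟩ := hcen z fun a => by rw [LieHom.map_lie, hz]
  obtain ⟨c', hc'⟩ := hker (y - (z + ⁅x + t • y, u⁆)) (by
    rw [map_sub, map_add, LieHom.map_lie, map_add, map_smul, ← e, sub_self])
  set v : n → k := w + t • w' with hv
  have e1 : wsh σ w' = (c + c') • 1 + (wsh σ v * u.1 - u.1 * wsh σ v) := by
    rw [hv, ← wsh_add, add_smul, ← hc', ← hzc]
    simp [x, y, Ring.lie_def, add_mul, mul_add, smul_sub]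
    abel
  have hv0 : ∀ j, pos j = -1 → v j = 0 := fun j hj => by simp [hv, w, hw' j hj, hj]
  have hv1 : ∀ j, pos j ≠ -1 → v j ≠ 0 := fun j hj => by
    by_cases h0 : j = j0 <;> simp [hv, w, w', hj, h0, ht]
  let ι : ZMod p →+* k := ZMod.castHom (dvd_refl p) k
  let U : Matrix n n k := wsh σ⁻¹ fun j => ι (pos j) / v (σ⁻¹ j)
  have hU : U * wsh σ v - wsh σ v * U = 1 := by
    have hm : ∀ j, ι (pos (σ j)) / v j * v j = ι (pos j + 1) := fun j => by
      by_cases h0 : pos j = -1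
      · simp [hv0 j h0, h0]
      · rw [div_mul_cancel₀ _ (hv1 j h0), hc.step]
    ext i j
    have h1 := hm j
    have h2 := hm (σ⁻¹ j)
    have h3 := hc.step (σ⁻¹ j)
    simp only [Equiv.Perm.coe_inv, Equiv.apply_symm_apply] at h2 h3
    rw [← h3, mul_comm] at h2
    by_cases hij : i = j <;> simp [U, wsh, Matrix.mul_apply, Matrix.one_apply, hij, h1, h2]
  let H : Matrix n n k := Matrix.diagonal fun j => if j = j0 then t⁻¹ else 0
  have hH : wsh σ v * H - H * wsh σ v = wsh σ w' := by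
    ext i j
    simp only [H, Matrix.sub_apply, Matrix.mul_diagonal, Matrix.diagonal_mul, wsh, Matrix.of_apply]
    by_cases hij : i = σ j
    · subst hij
      by_cases h0 : j = j0
      · subst h0
        simp [hv, w, w', hc.ne j, ht]
      · by_cases h1 : σ j = j0
        · have : pos j = -1 := by
            have := hc.step j
            rw [h1, hj0] at this
            exact eq_neg_of_add_eq_zero_left this.symm
          simp [h0, hv0 j this, w']
        · simp [h0, h1, w']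
    · simp [hij]
  have hcomm : wsh σ v * (H - u.1 + (c + c') • U) = (H - u.1 + (c + c') • U) * wsh σ v := by
    rw [← hH, ← hU] at e1
    simp only [mul_add, add_mul, mul_sub, sub_mul, mul_smul_comm, smul_mul_assoc]
    rw [smul_sub] at e1
    linear_combination (norm := abel1) e1
  have htr : ∀ C : Matrix n n k, wsh σ v * C = C * wsh σ v → C.trace = 0 := fun C hC => by
    rw [← mul_one C, ← hU, mul_sub, Matrix.trace_sub, ← mul_assoc, Matrix.trace_mul_comm,
      ← mul_assoc, ← mul_assoc, hC, sub_self]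
  have h1 := htr _ hcomm
  have h2 : U.trace = 0 := by
    have : ∀ j, j ≠ σ.symm j := fun j e => hc.ne j (by nth_rewrite 1 [e]; simp)
    simp [U, Matrix.trace, wsh, this]
  have h3 : u.1.trace = 0 := u.2
  simp [h2, h3, H, ht] at h1

omit hp [CharP k p] in
theorem scalar_of_comm [Nonempty n] (z : Matrix n n k)
    (h : ∀ i j, i ≠ j → Matrix.single i j (1 : k) * z = z * Matrix.single i j 1) :
    ∃ c : k, z = c • 1 := by
  obtain ⟨c, hc⟩ := Matrix.mem_range_scalar_of_commute_single (M := z) fun i j hij => h i j hij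
  exact ⟨c, by rw [← hc]; ext i j; simp [Matrix.diagonal_apply, Matrix.one_apply]⟩

theorem not_ret_sl [IsAlgClosed k] [Nonempty n] (hn : p ∣ Fintype.card n)
    {ρ : sl n k →ₗ[k] Matrix m m k} {π : Matrix m m k →ₗ[k] sl n k} : ¬ Ret ρ π :=
  no_ret_sl hn LieHom.id Function.surjective_id (fun a h => ⟨0, by simp [show a = 0 from h]⟩)
    fun z hz => scalar_of_comm _ fun i j hij =>
      sub_eq_zero.1 (congrArg Subtype.val (hz ⟨Matrix.single i j 1, by
        show Matrix.trace _ = 0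
        simp [hij]⟩))

theorem not_ret_psl [IsAlgClosed k] (hn : p ∣ Fintype.card n) (h2 : 2 < Fintype.card n)
    (φ : sl n k →ₗ⁅k⁆ g) (hφ : Function.Surjective φ) (hker : ∀ a, φ a = 0 → ∃ c : k, a.1 = c • 1) :
    ¬ Ret ρ π := by
  have : Nonempty n := Fintype.card_pos_iff.1 (by omega)
  refine no_ret_sl hn φ hφ hker fun z hz => scalar_of_comm _ fun i j hij => ?_
  obtain ⟨c, hc⟩ := hker _ (hz ⟨Matrix.single i j 1, by
        show Matrix.trace _ = 0
        simp [hij]⟩)
  obtain ⟨l, h1, h3⟩ : ∃ l, l ≠ i ∧ l ≠ j := by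
    by_contra hcon
    push Not at hcon
    have : (Finset.univ : Finset n) ⊆ {i, j} := fun l _ => by
      by_cases h : l = i
      · simp [h]
      · simp [hcon l h]
    have := (Finset.card_le_card this).trans Finset.card_le_two
    rw [Finset.card_univ] at this
    omega
  have h4 : Matrix.single i j (1 : k) * z.1 - z.1 * Matrix.single i j 1 = c • 1 := hc
  have h5 := congrFun (congrFun h4 l) l
  simp [h1, h3] at h5
  rw [← sub_eq_zero, h4, ← h5, zero_smul]

omit [CharP k p] in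
/-- the two matrices used for quotients of `gl` -/
theorem exists_pair (hn : p ∣ Fintype.card n) : ∃ X Y : Matrix n n k, X.trace = 0 ∧ Y.trace = 0 ∧
    X ^ p = 0 ∧ Y ^ p = 0 ∧ ∀ t : k, (X + t • Y) ^ p = t • 1 := by
  obtain ⟨σ, pos, hc⟩ := exists_cyc hn
  refine ⟨wsh σ fun j => if pos j = -1 then 0 else 1, wsh σ fun j => if pos j = -1 then 1 else 0,
    hc.trace _, hc.trace _, ?_, ?_, fun t => ?_⟩
  · simpa using hc.pow_eq (k := k) _ 0 (fun j hj => if_pos hj) (Or.inl rfl)
  · have h2 : wsh σ (fun j => if pos j = -1 then (1 : k) else 0) ^ 2 = 0 := by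
      rw [wsh_pow]
      ext i j
      by_cases h : pos j = -1 <;> simp [wsh, Finset.prod_range_succ, hc.step, h]
    exact pow_eq_zero_of_le hp.out.two_le h2
  · rw [wsh_add]
    exact hc.pow_eq _ t (fun j hj => by simp [hj]) (Or.inr fun j hj => by simp [hj])

theorem no_ret_gl [IsAlgClosed k] [Nonempty n] {L : Type*} [LieRing L] [LieAlgebra k L]
    (θ : L →ₗ⁅k⁆ Matrix n n k) (hθ : Function.Surjective θ) (φ : L →ₗ⁅k⁆ g)
    (hφ : Function.Surjective φ) (hker : ∀ a, φ a = 0 → ∃ c : k, θ a = c • 1) (x y : L)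
    (hxy : ∀ t : k, (θ x + t • θ y) ^ p = t • 1)
    (hx : ∀ a, (LieAlgebra.ad k L x ^ p) a = 0) (hy : ∀ a, (LieAlgebra.ad k L y ^ p) a = 0)
    (hj : ∀ t : k, φ ((LieAlgebra.ad k L (x + t • y) ^ (p - 1)) y) = 0) : ¬ Ret ρ π := by
  intro h
  have hnil : ∀ u : L, (∀ a, (LieAlgebra.ad k L u ^ p) a = 0) →
      LieAlgebra.ad k g (φ u) ^ p = 0 := by
    intro u hu
    ext b
    obtain ⟨a, rfl⟩ := hφ b
    rw [← map_ad_pow, hu, map_zero, LinearMap.zero_apply]
  obtain ⟨t, ht, u, z, hz, e⟩ := h.crit2 (p := p) (φ x) (φ y) (hnil x hx) (hnil y hy)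
    (fun t => by rw [← map_smul, ← map_add, ← map_ad_pow, hj])
  obtain ⟨u, rfl⟩ := hφ u
  obtain ⟨z, rfl⟩ := hφ z
  have hz' : ∀ A : Matrix n n k, ∃ c : k, A * θ z - θ z * A = c • 1 := fun A => by
    obtain ⟨a, rfl⟩ := hθ A
    obtain ⟨c, hc⟩ := hker ⁅a, z⁆ (by rw [LieHom.map_lie, hz])
    exact ⟨c, by rw [← hc, LieHom.map_lie, Ring.lie_def]⟩
  obtain ⟨c, hc⟩ : ∃ c : k, θ z = c • 1 := scalar_of_comm _ fun i j hij => by
    obtain ⟨c, hc⟩ := hz' (Matrix.single i j 1)
    obtain ⟨c', hc'⟩ := hz' (Matrix.single i i 1)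
    have h1 := congrFun (congrFun hc' j) i
    have h2 := congrFun (congrFun hc i) i
    simp [hij, hij.symm] at h1 h2
    rw [← sub_eq_zero, hc, ← h2, h1, zero_smul]
  obtain ⟨c', hc'⟩ := hker (y - (z + ⁅x + t • y, u⁆)) (by
    rw [map_sub, map_add, LieHom.map_lie, map_add, map_smul, ← e, sub_self])
  have e1 : θ y = (c + c') • 1 + adr k (θ x + t • θ y) (θ u) := by
    rw [add_smul, ← hc', ← hc, adr_apply]
    rw [map_sub, map_add, LieHom.map_lie, map_add, map_smul, Ring.lie_def]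
    abel
  have h1 := adr_of_pow _ _ _ hxy t
  have h2 := adr_pow_q (k := k) (p := p) (θ x + t • θ y) (θ u) 1
  rw [pow_one, hxy] at h2
  obtain ⟨q, hq⟩ : ∃ q, p - 1 = q + 1 := ⟨p - 2, by have := hp.out.two_le; omega⟩
  nth_rewrite 2 [e1] at h1
  rw [map_add, ← Module.End.mul_apply, ← pow_succ, Nat.sub_add_cancel hp.out.pos, h2, hq,
    pow_succ, Module.End.mul_apply, adr_apply] at h1
  simp at h1

theorem not_ret_pgl [IsAlgClosed k] [Nonempty n] (hn : p ∣ Fintype.card n)
    (φ : Matrix n n k →ₗ⁅k⁆ g) (hφ : Function.Surjective φ)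
    (hker : ∀ a, φ a = 0 ↔ ∃ c : k, a = c • 1) : ¬ Ret ρ π := by
  obtain ⟨X, Y, -, -, hX, hY, h⟩ := exists_pair (k := k) hn
  have hnil : ∀ u : Matrix n n k, u ^ p = 0 → ∀ a, (LieAlgebra.ad k _ u ^ p) a = 0 := by
    intro u hu a
    have h2 := adr_pow_q (k := k) (p := p) u a 1
    rw [pow_one, hu] at h2
    exact h2.trans (by simp)
  exact no_ret_gl LieHom.id Function.surjective_id φ hφ (fun a ha => (hker a).1 ha) X Y h
    (hnil X hX) (hnil Y hY) fun t => (hker _).2 ⟨1, (adr_of_pow _ _ _ h t).trans (one_smul _ _).symm⟩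

end Pool.Agent.Lib.MP_3a0263_al
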