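import Pool.Agent.Lib.MP_3a0263_al.ScalarDefs
import Pool.Agent.Lib.MP_3a0263_al.Defs
import Pool.Agent.Lib.MP_3a0263_al.TypeA

namespace Pool.Agent.Lib.MP_3a0263_al

open LieAlgebra.SpecialLinear

attribute [local instance 100] LieRing.ofAssociativeRing

universe u

theorem finrank_sl (k : Type u) [Field k] (n : ℕ) (hn : 0 < n) :
    Module.finrank k (sl (Fin n) k) + 1 = n * n := by
  have h := LinearMap.finrank_range_add_finrank_ker (Matrix.traceLinearMap (Fin n) k k)
  have hr : LinearMap.range (Matrix.traceLinearMap (Fin n) k k) = ⊤ := by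
    rw [LinearMap.range_eq_top]
    intro c
    exact ⟨Matrix.single ⟨0, hn⟩ ⟨0, hn⟩ c, by simp⟩
  rw [hr, finrank_top, Module.finrank_self, Module.finrank_matrix] at h
  simp only [Fintype.card_fin, Module.finrank_self, mul_one] at h
  rw [← h, add_comm]
  rfl

theorem finrank_scalarIdeal (k : Type u) [Field k] (n : ℕ) (hn : 0 < n) (h0 : (n : k) = 0) :
    Module.finrank k (scalarIdeal k n).toSubmodule = 1 := by
  have hmem : (1 : Matrix (Fin n) (Fin n) k) ∈ sl (Fin n) k := by
    change Matrix.trace (1 : Matrix (Fin n) (Fin n) k) = 0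
    simp [h0]
  have : Nonempty (Fin n) := ⟨⟨0, hn⟩⟩
  have hne : (⟨1, hmem⟩ : sl (Fin n) k) ≠ 0 := by
    intro h
    have := congrArg Subtype.val h
    simp at this
  have : (scalarIdeal k n).toSubmodule = Submodule.span k {(⟨1, hmem⟩ : sl (Fin n) k)} := by
    ext x
    rw [Submodule.mem_span_singleton]
    constructor
    · rintro ⟨c, hc⟩
      exact ⟨c, Subtype.ext hc.symm⟩
    · rintro ⟨c, rfl⟩
      exact ⟨c, rfl⟩
  rw [this, finrank_span_singleton hne]

theorem finrank_psl (k : Type u) [Field k] (n : ℕ) (hn : 0 < n) (h0 : (n : k) = 0) :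
    Module.finrank k (sl (Fin n) k ⧸ scalarIdeal k n) + 2 = n * n := by
  have h2 := finrank_sl k n hn
  have h3 := finrank_scalarIdeal k n hn h0
  have h4 := Submodule.finrank_quotient_add_finrank (scalarIdeal k n).toSubmodule
  have h5 : Module.finrank k (sl (Fin n) k ⧸ scalarIdeal k n) =
    Module.finrank k (sl (Fin n) k ⧸ (scalarIdeal k n).toSubmodule) := rfl
  omega

theorem finrank_pgl (k : Type u) [Field k] (n : ℕ) (hn : 0 < n) :
    Module.finrank k (Matrix (Fin n) (Fin n) k ⧸ scalarIdealGl k n) + 1 = n * n := by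
  have : Nonempty (Fin n) := ⟨⟨0, hn⟩⟩
  have h1 : (scalarIdealGl k n).toSubmodule = Submodule.span k {(1 : Matrix (Fin n) (Fin n) k)} := by
    ext x
    rw [Submodule.mem_span_singleton]
    exact exists_congr fun c => eq_comm
  have h3 : Module.finrank k (scalarIdealGl k n).toSubmodule = 1 := by
    rw [h1, finrank_span_singleton one_ne_zero]
  have h4 := Submodule.finrank_quotient_add_finrank (scalarIdealGl k n).toSubmodule
  have h5 : Module.finrank k (Matrix (Fin n) (Fin n) k ⧸ scalarIdealGl k n) =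
    Module.finrank k (Matrix (Fin n) (Fin n) k ⧸ (scalarIdealGl k n).toSubmodule) := rfl
  rw [Module.finrank_matrix] at h4
  simp only [Fintype.card_fin, Module.finrank_self, mul_one] at h4
  omega

theorem not_iso_psl (k : Type u) [Field k] (p : ℕ) [hp : Fact p.Prime] [CharP k p] (r : ℕ)
    {g : Type u} [LieRing g] [LieAlgebra k g] (hg : Module.finrank k g + 1 = r * p * (r * p))
    (s : ℕ) (hs : 1 ≤ s) : IsEmpty (g ≃ₗ⁅k⁆ (sl (Fin (s * p)) k ⧸ scalarIdeal k (s * p))) := by
  refine ⟨fun e => ?_⟩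
  have h2 := hp.out.two_le
  have h1 := finrank_psl k (s * p) (by positivity) (by simp)
  have h5 := e.toLinearEquiv.finrank_eq
  have h6 : r * p * (r * p) + 1 = s * p * (s * p) := by omega
  have ha : p ∣ r * p * (r * p) := Dvd.dvd.mul_left (Dvd.intro_left r rfl) _
  have hb : p ∣ s * p * (s * p) := Dvd.dvd.mul_left (Dvd.intro_left s rfl) _
  rw [← h6] at hb
  have := Nat.le_of_dvd one_pos ((Nat.dvd_add_right ha).1 hb)
  omega

/-- the quotient map as a morphism of Lie algebras -/
def quotHom {k : Type u} [Field k] {L : Type u} [LieRing L] [LieAlgebra k L] (I : LieIdeal k L) :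
    L →ₗ⁅k⁆ L ⧸ I :=
  { (LieSubmodule.Quotient.mk' I : L →ₗ[k] L ⧸ I) with map_lie' := rfl }

theorem quotHom_surj {k : Type u} [Field k] {L : Type u} [LieRing L] [LieAlgebra k L]
    (I : LieIdeal k L) : Function.Surjective (quotHom I) :=
  LieSubmodule.Quotient.surjective_mk' I

theorem quotHom_eq_zero {k : Type u} [Field k] {L : Type u} [LieRing L] [LieAlgebra k L]
    (I : LieIdeal k L) (a : L) : quotHom I a = 0 ↔ a ∈ I :=
  LieSubmodule.Quotient.mk_eq_zero'

theorem HasInvariantComplement.ret {k g : Type u} [Field k] [LieRing g] [LieAlgebra k g]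
    (h : HasInvariantComplement k g) : ∃ (m : ℕ) (ρ : g →ₗ[k] Matrix (Fin m) (Fin m) k)
      (π : Matrix (Fin m) (Fin m) k →ₗ[k] g), Ret ρ π := by
  obtain ⟨Y, _, _, _, _, hfin, hf, R, hc, hR⟩ := h
  exact exists_ret hf R hc hR

theorem center_pgl (k : Type u) [Field k] (n : ℕ) (hn : 0 < n) :
    LieAlgebra.center k (Matrix (Fin n) (Fin n) k ⧸ scalarIdealGl k n) = ⊥ := by
  have : Nonempty (Fin n) := ⟨⟨0, hn⟩⟩
  rw [eq_bot_iff]
  intro z hz
  obtain ⟨z, rfl⟩ := quotHom_surj _ z
  rw [LieSubmodule.mem_bot, quotHom_eq_zero]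
  have h : ∀ a, ∃ c : k, a * z - z * a = c • 1 := fun a => by
    have := (LieModule.mem_maxTrivSubmodule _ _ _ _).1 hz (quotHom _ a)
    rw [← LieHom.map_lie, quotHom_eq_zero] at this
    exact this
  have hd : ∀ i j, i ≠ j → z i j = 0 := fun i j hij => by
    obtain ⟨c, hc⟩ := h (Matrix.single i i 1)
    have := congrFun (congrFun hc i) j
    simpa [hij, hij.symm] using this
  refine scalar_of_comm z fun i j hij => ?_
  obtain ⟨c, hc⟩ := h (Matrix.single i j 1)
  have h1 := congrFun (congrFun hc i) i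
  have hc0 : c = 0 := by simpa [hij, hij.symm, hd j i hij.symm] using h1.symm
  rw [hc0, zero_smul] at hc
  exact sub_eq_zero.1 hc

end Pool.Agent.Lib.MP_3a0263_al
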