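import Mathlib

namespace Pool.Agent.Lib.MP_3a0263_al

open LieAlgebra.SpecialLinear

attribute [local instance 100] LieRing.ofAssociativeRing

universe u

/-- The ideal of scalar matrices lying in `sl n`. -/
def scalarIdeal (k : Type u) [Field k] (n : ℕ) : LieIdeal k (sl (Fin n) k) where
  carrier := {x | ∃ c : k, (x : Matrix (Fin n) (Fin n) k) = c • 1}
  zero_mem' := ⟨0, by simp⟩
  add_mem' := by
    rintro x y ⟨a, ha⟩ ⟨b, hb⟩
    exact ⟨a + b, by simp [ha, hb, add_smul]⟩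
  smul_mem' := by
    rintro c x ⟨a, ha⟩
    exact ⟨c * a, by simp [ha, mul_smul]⟩
  lie_mem := by
    rintro x y ⟨a, ha⟩
    exact ⟨0, by rw [sl_bracket, ha]; simp⟩

/-- The ideal of scalar matrices in `gl n`. -/
def scalarIdealGl (k : Type u) [Field k] (n : ℕ) : LieIdeal k (Matrix (Fin n) (Fin n) k) where
  carrier := {x | ∃ c : k, x = c • 1}
  zero_mem' := ⟨0, by simp⟩
  add_mem' := by
    rintro x y ⟨a, ha⟩ ⟨b, hb⟩
    exact ⟨a + b, by simp [ha, hb, add_smul]⟩
  smul_mem' := by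
    rintro c x ⟨a, ha⟩
    exact ⟨c * a, by simp [ha, mul_smul]⟩
  lie_mem := by
    rintro x y ⟨a, ha⟩
    exact ⟨0, by rw [Ring.lie_def, ha]; simp⟩

end Pool.Agent.Lib.MP_3a0263_al
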